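import Pool.Agent.Helper2_Pak.Stmts
import Pool.Agent.Helper2_Pack.S2

/-!
# PAK1 module C5: coarse placement
-/

namespace Pool.Agent.Helper2_Pak.H66

open MeasureTheory
open Pool.Agent.Helper2_Pack (Motion)

/-- near a cell, in some orientation -/
def NearC (e : ℝ) (a : ℂ) (g : Motion) : Prop := ∃ k, NearK e a k g

theorem NearC.mono {e e' : ℝ} (h : e ≤ e') {a : ℂ} {g : Motion} (hn : NearC e a g) :
    NearC e' a g := by
  obtain ⟨k, hk, h1, h2, h3⟩ := hn
  exact ⟨k, hk, h1.trans h, h2.trans h, h3.trans h⟩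

theorem rhoG_sq {t : ℝ} {G : Lay} (ht : 0 < t) : rhoG t G ^ 2 = 64 * (G.K * t) := by
  unfold rhoG
  rw [mul_pow, Real.sq_sqrt (by positivity)]
  norm_num

theorem rhoG_nonneg (t : ℝ) (G : Lay) : 0 ≤ rhoG t G := by
  unfold rhoG
  positivity

/-- `8 t ≤ ρ` -/
theorem le_rhoG {t : ℝ} {G : Lay} (ht : 0 < t) (ht1 : t ≤ 1) (hK : (1 : ℝ) ≤ G.K) :
    8 * t ≤ rhoG t G := by
  rw [← pow_le_pow_iff_left₀ (by positivity) (rhoG_nonneg t G) (two_ne_zero), rhoG_sq ht]
  have h1 : t ^ 2 ≤ t := by nlinarith only [ht, ht1]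
  have h2 : t ≤ G.K * t := by nlinarith only [ht, hK]
  nlinarith

theorem e_small {t : ℝ} {G : Lay} (hq : Small t G) {n : ℕ} (hn : n ≤ G.K) :
    256 ^ n * (4 * rhoG t G) ≤ 1 / 1000000 := by
  have h1 := hq.pos
  have h2 := hq.small
  have h0 := rhoG_nonneg t G
  rw [← pow_le_pow_iff_left₀ (by positivity) (by norm_num) (two_ne_zero), mul_pow, mul_pow,
    rhoG_sq h1]
  have h3 : ((256 : ℝ) ^ n) ^ 2 = 2 ^ (16 * n) := by
    rw [← pow_mul, show (256 : ℝ) = 2 ^ 8 by norm_num, ← pow_mul]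
    congr 1
    ring
  have h4 : (2 : ℝ) ^ (16 * n) ≤ 2 ^ (16 * G.K) := pow_le_pow_right₀ (by norm_num) (by omega)
  have h5 : (G.K : ℝ) ≤ 2 ^ (16 * G.K) := by
    have a1 : G.K < 2 ^ G.K := Nat.lt_two_pow_self
    have a2 : (G.K : ℝ) ≤ 2 ^ G.K := by exact_mod_cast a1.le
    exact a2.trans (pow_le_pow_right₀ (by norm_num) (by omega))
  have h6 : (2 : ℝ) ^ (32 * G.K + 120) = 2 ^ (16 * G.K) * 2 ^ (16 * G.K) * 2 ^ 120 := by
    rw [← pow_add, ← pow_add]
    congr 1
    ring
  rw [h6] at h2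
  rw [h3]
  set A : ℝ := 2 ^ (16 * G.K) with hA
  have hA0 : 0 < A := by positivity
  have h7 : 2 ^ (16 * n) * (G.K * t) ≤ A * (A * t) := by
    apply mul_le_mul h4 (mul_le_mul_of_nonneg_right h5 h1.le) (by positivity) hA0.le
  have h8 : A * (A * t) ≤ 1 / 2 ^ 120 := by
    rw [le_div_iff₀ (by positivity)]
    linarith only [h2]
  have h9 : (2 : ℝ) ^ (16 * n) * (4 ^ 2 * (64 * (G.K * t))) = 1024 * (2 ^ (16 * n) * (G.K * t)) := by
    ring
  rw [h9]
  have h10 : (1024 : ℝ) * (1 / 2 ^ 120) ≤ (1 / 1000000) ^ 2 := by norm_num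
  linarith

theorem Sq_norm {q : ℝ} {w z : ℂ} (h : Sq q w z) : ‖z - w‖ ≤ q := by
  have h1 := Complex.norm_le_abs_re_add_abs_im (z - w)
  rw [Complex.sub_re, Complex.sub_im] at h1
  obtain ⟨h2, h3⟩ := h
  linarith

theorem disc_core {t q s : ℝ} {g : Motion} {w : ℂ} (ht : 0 < t) (htq : 8 * t ≤ q) (hs : 3 * q ≤ s)
    (h : ‖w - g.v‖ < 1 / 2 - s) : ∀ z, Sq q w z → InCore t g z := by
  intro z hz
  have h1 : ‖z - g.v‖ < 1 / 2 - 2 * t := by
    have : z - g.v = (z - w) + (w - g.v) := by ring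
    rw [this]
    refine lt_of_le_of_lt (norm_add_le _ _) ?_
    have := Sq_norm hz
    linarith
  have h3 : ‖(starRingEnd ℂ g.u) * (z - g.v)‖ = ‖z - g.v‖ := by
    rw [norm_mul, Complex.norm_conj, g.unit, one_mul]
  have h4 := Complex.abs_re_le_norm ((starRingEnd ℂ g.u) * (z - g.v))
  have h5 := Complex.abs_im_le_norm ((starRingEnd ℂ g.u) * (z - g.v))
  rw [h3] at h4 h5
  exact ⟨by linarith, by linarith only [h1, h5]⟩

section Avoid

variable {t : ℝ} {G : Lay}

/-- a disc in the cell of another piece -/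
theorem avoid_cell (h3 : C3Stmt) (h4 : C4Stmt) {e s : ℝ} (p : Packing t G)
    (hG : G.OK) (hq : Small t G) (ht60 : t ≤ 1 / 2 ^ 60) (hK : (1 : ℝ) ≤ G.K)
    (he0 : 0 ≤ e) (he : e ≤ 1 / 200) (hs : s = 3 * rhoG t G + 2 * e)
    {i j : Cell G} (hij : i ≠ j) {a w : ℂ} (hn : NearC e a (p.g j))
    (h1 : s ≤ (w - a).re) (h2 : (w - a).re ≤ 1 - s) (h3' : s ≤ (w - a).im)
    (h5 : (w - a).im ≤ 1 - s) : 1 / 2 - s ≤ ‖w - (p.g i).v‖ := by
  by_contra hcon
  rw [not_le] at hcon
  have ht := hq.pos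
  have htr := le_rhoG ht (ht60.trans (by norm_num)) hK
  obtain ⟨k, hk⟩ := hn
  refine (h3 t G p hG hq).1 i j hij w ⟨disc_core ht htr (by linarith only [he0, hs]) hcon, fun z hz => ?_⟩
  obtain ⟨hz1, hz2⟩ := hz
  rw [abs_lt] at hz1 hz2
  simp only [Complex.sub_re, Complex.sub_im] at h1 h2 h3' h5
  refine (h4 t e a k (p.g j) ht ht60 he0 he hk).1 z ?_ ?_ ?_ ?_ <;>
    simp only [Complex.sub_re, Complex.sub_im] <;> linarith only [hs, h1, htr, h2, h3', h5, hz1.1, hz1.2, hz2.1, hz2.2]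

/-- a disc outside of the container -/
theorem avoid_out (h3 : C3Stmt) {s : ℝ} (p : Packing t G)
    (hG : G.OK) (hq : Small t G) (ht60 : t ≤ 1 / 2 ^ 60) (hK : (1 : ℝ) ≤ G.K)
    (hs : 3 * rhoG t G ≤ s) (i : Cell G) {w : ℂ}
    (h : ∀ z, Sq (rhoG t G) w z → z ∉ G.cont t) : 1 / 2 - s ≤ ‖w - (p.g i).v‖ := by
  by_contra hcon
  rw [not_le] at hcon
  have htr := le_rhoG hq.pos (ht60.trans (by norm_num)) hK
  obtain ⟨z, hz, hz'⟩ := (h3 t G p hG hq).2.1 i w (disc_core hq.pos htr hs hcon)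
  exact h z hz hz'

end Avoid

/-- a point of a piece in the coordinates of its centre -/
theorem img_coord (hS2 : S2Stmt) {t : ℝ} (ht : 0 < t) (ht60 : t ≤ 1 / 2 ^ 60) {g : Motion}
    {z : ℂ} (hz : z ∈ tile t g) : ∃ α β : ℝ, z = g.v + g.u * (α + β * Complex.I) ∧
      |α| ≤ 1 / 2 + t ∧ |β| ≤ 1 / 2 + t := by
  obtain ⟨w, hw, rfl⟩ := hz
  obtain ⟨h1, h2, -⟩ := (hS2 t ht ht60).1 w hw
  have ht1 : t ≤ 1 / 4 := ht60.trans (by norm_num)
  have h3 : t ^ 2 ≤ t / 4 := by nlinarith only [ht, ht60]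
  have h4 : t ^ 3 ≤ t / 4 := by
    have : t ^ 3 = t * t ^ 2 := by ring
    nlinarith only [h3]
  refine ⟨w.re, w.im, ?_, by linarith, ?_⟩
  · unfold Motion.app
    conv_lhs => rw [← Complex.re_add_im w]
    ring
  · refine h2.trans ?_
    unfold hh
    linarith only [ht, h3, h4]

/-- the order of the cells -/
def key {G : Lay} : Cell G → ℕ
  | .inl p => p.1 + p.2
  | .inr _ => G.M + G.N

/-- the rank of a cell -/
def rank {G : Lay} (i : Cell G) : ℕ := (Finset.univ.filter fun j : Cell G => key j < key i).card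

theorem rank_lt {G : Lay} {i j : Cell G} (h : key j < key i) : rank j < rank i := by
  unfold rank
  refine Finset.card_lt_card ⟨fun l hl => ?_, fun hsub => ?_⟩
  · rw [Finset.mem_filter] at hl ⊢
    exact ⟨hl.1, hl.2.trans h⟩
  · have := hsub (Finset.mem_filter.2 ⟨Finset.mem_univ j, h⟩)
    exact absurd (Finset.mem_filter.1 this).2 (lt_irrefl _)

theorem rank_lt_K {G : Lay} (i : Cell G) : rank i < G.K := by
  unfold rank Lay.K
  rw [← Finset.card_univ]
  refine Finset.card_lt_card ⟨Finset.filter_subset _ _, fun hsub => ?_⟩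
  have := hsub (Finset.mem_univ i)
  exact absurd (Finset.mem_filter.1 this).2 (lt_irrefl _)

theorem isL_kd {k : Kind} (h : k.isL = true) : ∃ σ, k = .pL σ := by
  cases k <;> simp [Kind.isL] at h ⊢

theorem eL_bd (σ : Bool) : 14 / 32 ≤ eL σ ∧ eL σ ≤ 18 / 32 := by
  unfold eL
  split_ifs <;> norm_num

theorem eL_or (σ : Bool) : eL σ = 14 / 32 ∨ eL σ = 18 / 32 := by
  unfold eL
  split_ifs <;> norm_num

/-- the region of a missing cell of the array on the left of a present cell above the main part -/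
theorem out_cell (hG2 : G2Stmt) {t : ℝ} {G : Lay} (hG : G.OK) (hq : Small t G)
    (ht1 : t ≤ 1 / 1000) {X R : ℕ} (hX : X + 1 < G.M) (hnp : G.top X ≤ R)
    (hh : (G.kd (X + 1)).h ≠ 0) {z : ℂ} (z1 : X + t < z.re) (z2 : z.re < X + 1 - t)
    (z3 : R + t < z.im) (z4 : z.im < R + 1 - t) : z ∉ G.cont t := by
  intro hz
  have ht := hq.pos
  obtain ⟨i, a1, a2, a3, a4⟩ := (hG2 t G hG hq).2.1 z hz
  rw [Complex.sub_re] at a1 a2
  rw [Complex.sub_im] at a3 a4
  rcases i with ⟨⟨c, hc⟩, r⟩ | ⟨⟨c, hc⟩, hL⟩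
  · simp only [corner] at a1 a2 a3 a4
    have e1 : c = X := by
      have b1 : (c : ℝ) < X + 1 := by linarith only [z2, a1]
      have b2 : (X : ℝ) < c + 1 := by linarith only [z1, a2]
      have b3 : c < X + 1 := by exact_mod_cast b1
      have b4 : X < c + 1 := by exact_mod_cast b2
      omega
    have e2 : (r : ℕ) = R := by
      have b1 : ((r : ℕ) : ℝ) < R + 1 := by linarith
      have b2 : (R : ℝ) < (r : ℕ) + 1 := by linarith
      have b3 : (r : ℕ) < R + 1 := by exact_mod_cast b1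
      have b4 : R < (r : ℕ) + 1 := by exact_mod_cast b2
      omega
    have h2 := r.2
    subst e1
    simp only at h2
    omega
  · simp only [corner] at a1 a2 a3 a4
    simp only at hL
    obtain ⟨σ, hσ⟩ := isL_kd hL
    obtain ⟨c1, c2⟩ := hG.portL c σ hc hσ
    obtain ⟨-, -, c3⟩ := hG.portR (c + 1) σ c1 c2
    have hE := eL_bd (G.kd c).sig
    have b1 : (c : ℝ) < X + 1 := by linarith only [z2, a1, hE.1]
    have b2 : (X : ℝ) < c + 2 := by linarith only [z1, a2, hE.2]
    have b3 : c < X + 1 := by exact_mod_cast b1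
    have b4 : X < c + 2 := by exact_mod_cast b2
    rcases (by omega : c = X ∨ c + 1 = X) with h | h
    · subst h
      rw [c2] at hh
      exact hh rfl
    · subst h
      exact hh c3

/-- the region on the left of the room of a lever -/
theorem out_room (hG2 : G2Stmt) {t : ℝ} {G : Lay} (hG : G.OK) (hq : Small t G)
    (ht1 : t ≤ 1 / 1000) {c : ℕ} (hc : c < G.M) (hL : (G.kd c).isL = true) {z : ℂ}
    (z1 : c + t < z.re) (z2 : z.re < c + eL (G.kd c).sig - t) (z3 : G.N + t < z.im)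
    (z4 : z.im < G.N + 1 - t) : z ∉ G.cont t := by
  intro hz
  have ht := hq.pos
  obtain ⟨σ, hσ⟩ := isL_kd hL
  have hE0 := eL_bd (G.kd c).sig
  obtain ⟨i, a1, a2, a3, a4⟩ := (hG2 t G hG hq).2.1 z hz
  rw [Complex.sub_re] at a1 a2
  rw [Complex.sub_im] at a3 a4
  rcases i with ⟨⟨c', hc'⟩, r⟩ | ⟨⟨c', hc'⟩, hL'⟩
  · simp only [corner] at a1 a2 a3 a4
    have e1 : c' = c := by
      have b1 : (c' : ℝ) < c + 1 := by linarith only [z2, a1, hE0.2]
      have b2 : (c : ℝ) < c' + 1 := by linarith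
      have b3 : c' < c + 1 := by exact_mod_cast b1
      have b4 : c < c' + 1 := by exact_mod_cast b2
      omega
    have e2 : (r : ℕ) = G.N := by
      have b1 : ((r : ℕ) : ℝ) < G.N + 1 := by linarith
      have b2 : (G.N : ℝ) < (r : ℕ) + 1 := by linarith
      have b3 : (r : ℕ) < G.N + 1 := by exact_mod_cast b1
      have b4 : G.N < (r : ℕ) + 1 := by exact_mod_cast b2
      omega
    have h2 := r.2
    subst e1
    simp only at h2
    have h3 : G.top c' = G.N := by
      unfold Lay.top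
      rw [hσ]
      rfl
    omega
  · simp only [corner] at a1 a2 a3 a4
    simp only at hL'
    obtain ⟨σ', hσ'⟩ := isL_kd hL'
    obtain ⟨c1, c2⟩ := hG.portL c' σ' hc' hσ'
    have hE := eL_bd (G.kd c').sig
    have b1 : (c' : ℝ) < c + 1 := by linarith only [z2, a1, hE.1, hE0.2]
    have b2 : (c : ℝ) < c' + 2 := by linarith only [z1, a2, hE.2]
    have b3 : c' < c + 1 := by exact_mod_cast b1
    have b4 : c < c' + 2 := by exact_mod_cast b2
    rcases (by omega : c' = c ∨ c' + 1 = c) with h | h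
    · subst h
      linarith only [a1, z2]
    · subst h
      rw [c2] at hσ
      cases hσ

theorem c5_main (h1 : Helper2_Pack.C1Stmt) (h1' : C1Stmt) (h3 : C3Stmt) (h4 : C4Stmt)
    (hG2 : G2Stmt) (hS2 : S2Stmt) {t : ℝ} {G : Lay} (p : Packing t G) (hG : G.OK)
    (hq : Small t G) (ht60 : t ≤ 1 / 2 ^ 60) (hK : (1 : ℝ) ≤ G.K) : ∀ (n : ℕ) (i : Cell G),
    rank i = n → ∃ j, NearC (256 ^ (n + 1) * (4 * rhoG t G)) (corner i) (p.g j) := by
  intro n
  induction n using Nat.strong_induction_on with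
  | _ n ih =>
  intro i hi
  have ht := hq.pos
  have htr := le_rhoG ht (ht60.trans (by norm_num)) hK
  have ht1000 : t ≤ 1 / 1000 := ht60.trans (by norm_num)
  obtain ⟨-, hcov, hcore, hcoreL⟩ := hG2 t G hG hq
  set ρ : ℝ := rhoG t G with hρ
  have hρ0 : 0 < ρ := by linarith only [ht, htr]
  set e : ℝ := 256 ^ n * (4 * ρ) with he
  have hnK : n < G.K := hi ▸ rank_lt_K i
  have he1 : e ≤ 1 / 1000000 := e_small hq hnK.le
  have he2 : 4 * ρ ≤ e := by
    have : (1 : ℝ) ≤ 256 ^ n := one_le_pow₀ (by norm_num)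
    nlinarith only [ht, this, htr]
  have he0 : 0 ≤ e := by linarith
  have hen : 256 ^ (n + 1) * (4 * ρ) = 256 * e := by rw [he, pow_succ]; ring
  rw [hen]
  have hprev : ∀ i' : Cell G, key i' < key i → ∃ j, NearC e (corner i') (p.g j) := by
    intro i' hi'
    have h := rank_lt hi'
    rw [hi] at h
    obtain ⟨j, hj⟩ := ih (rank i') h i' rfl
    refine ⟨j, NearC.mono ?_ hj⟩
    exact mul_le_mul_of_nonneg_right (pow_le_pow_right₀ (by norm_num) h) (by linarith only [ht, htr])
  set s : ℝ := 3 * ρ + 2 * e with hs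
  have hs0 : 0 < s := by linarith
  have hs1 : s ≤ 1 / 1000 := by linarith only [he1, he2]
  have hs64 : 64 * s ≤ 256 * e := by linarith only [ht, htr, he2]
  have hs40 : 40 * s ≤ 256 * e := by linarith
  -- the first piece at the corner
  have hfirst : ∀ a : ℂ, (∀ z : ℂ, ρ + 2 * e < (z - a).re → (z - a).re < 2 * ρ + 2 * e →
      ρ + 2 * e < (z - a).im → (z - a).im < 2 * ρ + 2 * e → z ∈ G.cont t) →
      ∃ (j : Cell G) (z : ℂ) (α β : ℝ), z ∈ tile t (p.g j) ∧ ρ + 2 * e < (z - a).re ∧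
        (z - a).re < 2 * ρ + 2 * e ∧ ρ + 2 * e < (z - a).im ∧ (z - a).im < 2 * ρ + 2 * e ∧
        z - a = ((p.g j).v - a) + (p.g j).u * (α + β * Complex.I) ∧ |α| ≤ 1 / 2 + s ∧
        |β| ≤ 1 / 2 + s := by
    intro a ha
    have hb : ∀ z : ℂ, Sq ρ (a + ⟨3 / 2 * ρ + 2 * e, 3 / 2 * ρ + 2 * e⟩) z →
        ρ + 2 * e < (z - a).re ∧ (z - a).re < 2 * ρ + 2 * e ∧
        ρ + 2 * e < (z - a).im ∧ (z - a).im < 2 * ρ + 2 * e := by
      rintro z ⟨hz1, hz2⟩
      simp only [Complex.add_re, Complex.add_im] at hz1 hz2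
      rw [abs_lt] at hz1 hz2
      simp only [Complex.sub_re, Complex.sub_im]
      refine ⟨?_, ?_, ?_, ?_⟩ <;> linarith only [hz1.1, hz1.2, hz2.1, hz2.2]
    obtain ⟨j, z, hz, hzi⟩ := (h3 t G p hG hq).2.2 (a + ⟨3 / 2 * ρ + 2 * e, 3 / 2 * ρ + 2 * e⟩) (by
      have : {z | Sq (rhoG t G) (a + ⟨3 / 2 * ρ + 2 * e, 3 / 2 * ρ + 2 * e⟩) z} \ G.cont t = ∅ := by
        rw [Set.sdiff_eq_empty]
        intro z hz
        obtain ⟨b1, b2, b3, b4⟩ := hb z hz
        exact ha z b1 b2 b3 b4
      rw [this]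
      simp)
    obtain ⟨α, β, hα, hα1, hβ1⟩ := img_coord hS2 ht ht60 hzi
    obtain ⟨b1, b2, b3, b4⟩ := hb z hz
    refine ⟨j, z, α, β, hzi, b1, b2, b3, b4, ?_, by linarith only [ht, htr, he2, hα1], by linarith only [ht, htr, he2, hβ1]⟩
    conv_lhs => rw [hα]
    ring
  -- from the result of C1 to `NearC`
  have hfin : ∀ (a : ℂ) (j : Cell G), |((p.g j).v - a).re - 1 / 2| ≤ 256 * e →
      |((p.g j).v - a).im - 1 / 2| ≤ 256 * e →
      (∃ k : ℕ, k < 4 ∧ ‖(p.g j).u - Complex.I ^ k‖ ≤ 256 * e) →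
      ∃ j, NearC (256 * e) a (p.g j) := by
    rintro a j b1 b2 ⟨k, hk, b3⟩
    exact ⟨j, k, hk, b1, b2, b3⟩
  -- pieces in earlier cells are different
  have hne : ∀ (a : ℂ) (j j' : Cell G) (z : ℂ), z ∈ tile t (p.g j) →
      NearC e a (p.g j') → (1 + (t + 2 * e) < (z - a).re ∨ 1 + (t + 2 * e) < (z - a).im) →
      j ≠ j' := by
    rintro a j j' z hz ⟨k, hn⟩ hor rfl
    obtain ⟨-, b1, -, b2⟩ := (h4 t e a k (p.g j) ht ht60 he0 (by linarith only [he1]) hn).2 z hz
    rcases hor with h | h <;> linarith only [b1, h, b2]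
  rcases i with ⟨⟨c, hcM⟩, ⟨r, hr⟩⟩ | c
  · -- array
    simp only at hr
    set a : ℂ := corner (.inl ⟨⟨c, hcM⟩, ⟨r, hr⟩⟩ : Cell G) with ha
    have hare : a.re = c := rfl
    have haim : a.im = r := rfl
    have hc0 : (0 : ℝ) ≤ c := Nat.cast_nonneg _
    have hr0 : (0 : ℝ) ≤ r := Nat.cast_nonneg _
    have hpres : G.pres c r = true := by simp [Lay.pres, hcM, hr]
    have hneg : ∀ z : ℂ, z ∈ G.cont t → -t ≤ z.re ∧ -t ≤ z.im := by
      intro z hz
      obtain ⟨i, a1, -, a3, -⟩ := hcov z hz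
      rw [Complex.sub_re] at a1
      rw [Complex.sub_im] at a3
      rcases i with p | ⟨c', hL'⟩
      · simp only [corner] at a1 a3
        have b1 : (0 : ℝ) ≤ ((p.1 : ℕ) : ℝ) := Nat.cast_nonneg _
        have b2 : (0 : ℝ) ≤ ((p.2 : ℕ) : ℝ) := Nat.cast_nonneg _
        constructor <;> linarith only [a1, a3]
      · simp only [corner] at a1 a3
        have b1 : (0 : ℝ) ≤ ((c' : ℕ) : ℝ) := Nat.cast_nonneg _
        have b2 : (0 : ℝ) ≤ (G.N : ℝ) := Nat.cast_nonneg _
        have b3 := (eL_bd (G.kd c').sig).1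
        constructor <;> linarith only [a1, b3, a3]
    obtain ⟨j, z, α, β, hz, b1, b2, b3, b4, hzα, hα, hβ⟩ := hfirst a (by
      intro z b1 b2 b3 b4
      simp only [Complex.sub_re, Complex.sub_im, hare, haim] at b1 b2 b3 b4
      refine hcore c r z hpres ?_ ?_ ?_ ?_ <;> linarith only [ht, htr, he2, b1, ht60, he1, b2, b3, b4])
    -- the three neighbours
    have hnb : ∀ X R : ℕ, (X + 1 = c ∧ (R = r ∨ R + 1 = r) ∨ X = c ∧ R + 1 = r) →
        ∀ w : ℂ, X - c + s ≤ w.re → w.re ≤ X - c + 1 - s → R - r + s ≤ w.im →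
          w.im ≤ R - r + 1 - s → 1 / 2 - s ≤ ‖w - ((p.g j).v - a)‖ := by
      intro X R hXR w w1 w2 w3 w4
      have hw : w - ((p.g j).v - a) = (w + a) - (p.g j).v := by ring
      rw [hw]
      by_cases hp : X < G.M ∧ R < G.top X
      · obtain ⟨hX, hR⟩ := hp
        obtain ⟨j', hj'⟩ := hprev (.inl ⟨⟨X, hX⟩, ⟨R, hR⟩⟩) (by
          simp only [key]
          omega)
        have hre : (corner (.inl ⟨⟨X, hX⟩, ⟨R, hR⟩⟩ : Cell G)).re = X := rfl
        have him : (corner (.inl ⟨⟨X, hX⟩, ⟨R, hR⟩⟩ : Cell G)).im = R := rfl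
        refine avoid_cell h3 h4 p hG hq ht60 hK he0 (by linarith only [he1]) hs (hne _ j j' z hz hj' ?_) hj'
          ?_ ?_ ?_ ?_
        · rw [Complex.sub_re, hare] at b1
          rw [Complex.sub_im, haim] at b3
          rw [Complex.sub_re, Complex.sub_im, hre, him]
          rcases hXR with ⟨h, -⟩ | ⟨-, h⟩
          · left
            have : (X : ℝ) + 1 = c := by exact_mod_cast h
            linarith only [ht, htr, b1, this]
          · right
            have : (R : ℝ) + 1 = r := by exact_mod_cast h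
            linarith only [ht, htr, b3, this]
        all_goals
          simp only [Complex.sub_re, Complex.sub_im, Complex.add_re, Complex.add_im, hre, him,
            hare, haim]
          linarith only [w1, w2, w3, w4]
      · have hX : X < G.M := by omega
        have hR : G.top X ≤ R := by
          by_contra hcon
          exact hp ⟨hX, by omega⟩
        have hX1 : X + 1 = c := by
          rcases hXR with h | h
          · exact h.1
          · obtain ⟨rfl, h2⟩ := h
            omega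
        refine avoid_out h3 p hG hq ht60 hK (by linarith only [ht, htr, he2]) j fun z' hz' => ?_
        obtain ⟨d1, d2⟩ := hz'
        rw [abs_lt, Complex.add_re, hare] at d1
        rw [abs_lt, Complex.add_im, haim] at d2
        refine out_cell hG2 hG hq ht1000 (X := X) (R := R) (by omega) hR ?_ ?_ ?_ ?_ ?_
        · rw [hX1]
          have h2 : G.N ≤ G.top X := by unfold Lay.top; omega
          have h5 : R ≤ r := by omega
          unfold Lay.top at hr h2 hR
          omega
        all_goals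
          linarith only [htr, he2, w1, w2, w3, w4, d1.1, d1.2, d2.1, d2.2]
    have hC1 := h1 s ((p.g j).v - a) (p.g j).u (z - a) α β hs0 hs1 (p.g j).unit
      (by
        intro w w1 w2 w3 w4
        by_cases hc : c = 0
        · have hw : w - ((p.g j).v - a) = (w + a) - (p.g j).v := by ring
          rw [hw]
          refine avoid_out h3 p hG hq ht60 hK (by linarith only [ht, htr, he2]) j fun z' hz' hzc => ?_
          have := (hneg z' hzc).1
          obtain ⟨d1, -⟩ := hz'
          rw [abs_lt, Complex.add_re, hare, hc] at d1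
          push_cast at d1
          linarith only [htr, he2, w2, this, d1, d1.2]
        · obtain ⟨X, rfl⟩ := Nat.exists_eq_succ_of_ne_zero hc
          refine hnb X r (Or.inl ⟨rfl, Or.inl rfl⟩) w ?_ ?_ ?_ ?_ <;> push_cast <;> linarith only [w1, w2, w3, w4])
      (by
        intro w w1 w2 w3 w4
        by_cases hr' : r = 0
        · have hw : w - ((p.g j).v - a) = (w + a) - (p.g j).v := by ring
          rw [hw]
          refine avoid_out h3 p hG hq ht60 hK (by linarith only [ht, htr, he2]) j fun z' hz' hzc => ?_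
          have := (hneg z' hzc).2
          obtain ⟨-, d1⟩ := hz'
          rw [abs_lt, Complex.add_im, haim, hr'] at d1
          push_cast at d1
          linarith only [htr, he2, w4, this, d1, d1.2]
        · obtain ⟨R, rfl⟩ := Nat.exists_eq_succ_of_ne_zero hr'
          refine hnb c R (Or.inr ⟨rfl, rfl⟩) w ?_ ?_ ?_ ?_ <;> push_cast <;> linarith only [w1, w2, w3, w4])
      (by
        intro w w1 w2 w3 w4
        have hw : w - ((p.g j).v - a) = (w + a) - (p.g j).v := by ring
        by_cases hc : c = 0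
        · rw [hw]
          refine avoid_out h3 p hG hq ht60 hK (by linarith only [ht, htr, he2]) j fun z' hz' hzc => ?_
          have := (hneg z' hzc).1
          obtain ⟨d1, -⟩ := hz'
          rw [abs_lt, Complex.add_re, hare, hc] at d1
          push_cast at d1
          linarith only [htr, he2, w2, this, d1, d1.2]
        by_cases hr' : r = 0
        · rw [hw]
          refine avoid_out h3 p hG hq ht60 hK (by linarith only [ht, htr, he2]) j fun z' hz' hzc => ?_
          have := (hneg z' hzc).2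
          obtain ⟨-, d1⟩ := hz'
          rw [abs_lt, Complex.add_im, haim, hr'] at d1
          push_cast at d1
          linarith only [htr, he2, w4, this, d1, d1.2]
        · obtain ⟨X, rfl⟩ := Nat.exists_eq_succ_of_ne_zero hc
          obtain ⟨R, rfl⟩ := Nat.exists_eq_succ_of_ne_zero hr'
          refine hnb X R (Or.inl ⟨rfl, Or.inr rfl⟩) w ?_ ?_ ?_ ?_ <;> push_cast <;> linarith only [w1, w2, w3, w4])
      (by rw [abs_le]; constructor <;> linarith only [ht, htr, he2, b1, b2]) (by rw [abs_le]; constructor <;> linarith only [ht, htr, he2, b3, b4])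
      hzα hα hβ
    obtain ⟨q1, q2, k, hk, q3⟩ := hC1
    exact hfin a j (q1.trans hs40) (q2.trans hs40) ⟨k, hk, q3.trans hs40⟩
  · -- rooms
    obtain ⟨⟨c, hc⟩, hL⟩ := c
    simp only at hL
    set d : ℝ := eL (G.kd c).sig with hd
    set a : ℂ := corner (.inr ⟨⟨c, hc⟩, hL⟩ : Cell G) with ha
    have hare : a.re = (c : ℝ) + d := rfl
    have haim : a.im = G.N := rfl
    have hdb := eL_bd (G.kd c).sig
    rw [← hd] at hdb
    obtain ⟨σ, hσ⟩ := isL_kd hL
    obtain ⟨hc1, hσ1⟩ := hG.portL c σ hc hσ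
    have hN : 1 ≤ G.N := by unfold Lay.N; omega
    have htop : ∀ X, G.N ≤ G.top X := fun X => by unfold Lay.top; omega
    obtain ⟨j, z, α, β, hz, b1, b2, b3, b4, hzα, hα, hβ⟩ := hfirst a (by
      intro z b1 b2 b3 b4
      simp only [Complex.sub_re, Complex.sub_im, hare, haim] at b1 b2 b3 b4
      have ht7 : t ^ 7 ≤ t := by
        have : t ^ 7 ≤ t ^ 1 := pow_le_pow_of_le_one ht.le (by linarith only [ht60]) (by norm_num)
        simpa using this
      refine hcoreL c z hc hL ?_ ?_ ?_ ?_ ?_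
      · linarith only [ht, htr, he2, b1]
      · linarith only [ht60, he1, he2, b2]
      · linarith only [ht, htr, he2, b3]
      · linarith only [ht60, he1, he2, b4]
      · refine le_trans ?_ (neg_le_abs _)
        linarith only [ht60, he1, he2, b2, ht7, hdb.2])
    have hNr : (((G.N - 1 : ℕ)) : ℝ) = G.N - 1 := by
      rw [Nat.cast_sub hN]
      simp
    have hlow : ∀ X : ℕ, (X = c ∨ X = c + 1) → ∀ w : ℂ, X - c - d + s ≤ w.re →
        w.re ≤ X - c - d + 1 - s → -1 + s ≤ w.im → w.im ≤ -s →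
        1 / 2 - s ≤ ‖w - ((p.g j).v - a)‖ := by
      intro X hX w w1 w2 w3 w4
      have hw : w - ((p.g j).v - a) = (w + a) - (p.g j).v := by ring
      rw [hw]
      have hXM : X < G.M := by omega
      have hR : G.N - 1 < G.top X := by
        have := htop X
        omega
      obtain ⟨j', hj'⟩ := hprev (.inl ⟨⟨X, hXM⟩, ⟨G.N - 1, hR⟩⟩) (by
        simp only [key]
        omega)
      have hre : (corner (.inl ⟨⟨X, hXM⟩, ⟨G.N - 1, hR⟩⟩ : Cell G)).re = X := rfl
      have him : (corner (.inl ⟨⟨X, hXM⟩, ⟨G.N - 1, hR⟩⟩ : Cell G)).im = G.N - 1 := hNr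
      refine avoid_cell h3 h4 p hG hq ht60 hK he0 (by linarith only [he1]) hs (hne _ j j' z hz hj' ?_) hj'
        ?_ ?_ ?_ ?_
      · right
        rw [Complex.sub_im, haim] at b3
        rw [Complex.sub_im, him]
        linarith only [ht, htr, b3]
      all_goals
        simp only [Complex.sub_re, Complex.sub_im, Complex.add_re, Complex.add_im, hre, him,
          hare, haim]
        linarith only [w1, w2, w3, w4]
    have hC1 := h1' s d ((p.g j).v - a) (p.g j).u (z - a) α β (eL_or _) hs0 hs1 (p.g j).unit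
      (by
        intro w w1 w2 w3 w4
        have hw : w - ((p.g j).v - a) = (w + a) - (p.g j).v := by ring
        rw [hw]
        refine avoid_out h3 p hG hq ht60 hK (by linarith only [ht, htr, he2]) j fun z' hz' => ?_
        obtain ⟨d1, d2⟩ := hz'
        rw [abs_lt, Complex.add_re, hare] at d1
        rw [abs_lt, Complex.add_im, haim] at d2
        refine out_room hG2 hG hq ht1000 hc hL ?_ ?_ ?_ ?_
        · linarith only [htr, he2, w1, d1, d1.1]
        · rw [← hd]
          linarith only [htr, he2, w2, d1, d1.2]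
        · linarith only [htr, he2, w3, d2, d2.1]
        · linarith only [htr, he2, w4, d2, d2.2])
      (by
        intro w w1 w2 w3 w4
        refine hlow c (Or.inl rfl) w ?_ ?_ w3 w4 <;> linarith only [w1, w2])
      (by
        intro w w1 w2 w3 w4
        refine hlow (c + 1) (Or.inr rfl) w ?_ ?_ w3 w4 <;> push_cast <;> linarith only [w1, w2])
      (by rw [abs_le]; constructor <;> linarith only [ht, htr, he2, b1, b2]) (by rw [abs_le]; constructor <;> linarith only [ht, htr, he2, b3, b4])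
      hzα hα hβ
    obtain ⟨q1, q2, k, hk, q3⟩ := hC1
    exact hfin a j (q1.trans hs64) (q2.trans hs64) ⟨k, hk, q3.trans hs64⟩

/-- the corners are far from each other -/
theorem corner_inj {G : Lay} {i j : Cell G}
    (h1 : |(corner i - corner j).re| < 1 / 256)
    (h2 : |(corner i - corner j).im| < 1 / 256) : i = j := by
  rw [abs_lt, Complex.sub_re] at h1
  rw [abs_lt, Complex.sub_im] at h2
  have key : ∀ (c r : ℕ) (hc : c < G.M) (hr : r < G.top c) (c' : ℕ) (hc' : c' < G.M)
      (hL : (G.kd c').isL = true), (c : ℝ) - (c' + eL (G.kd c').sig) < 1 / 256 →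
      -(1 / 256) < (c : ℝ) - (c' + eL (G.kd c').sig) → False := by
    intro c r hc hr c' hc' hL a1 a2
    have hE := eL_bd (G.kd c').sig
    have b1 : (c : ℝ) < c' + 1 := by linarith only [a1, hE.2]
    have b2 : (c' : ℝ) < c := by linarith only [a2, hE.1]
    have b3 : c < c' + 1 := by exact_mod_cast b1
    have b4 : c' < c := by exact_mod_cast b2
    omega
  rcases i with ⟨⟨c, hc⟩, ⟨r, hr⟩⟩ | ⟨⟨c, hc⟩, hL⟩ <;>
    rcases j with ⟨⟨c', hc'⟩, ⟨r', hr'⟩⟩ | ⟨⟨c', hc'⟩, hL'⟩
  · simp only [corner] at h1 h2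
    have e1 : c = c' := by
      have a1 : (c : ℝ) < c' + 1 := by linarith only [h1.2]
      have a2 : (c' : ℝ) < c + 1 := by linarith only [h1.1]
      have a3 : c < c' + 1 := by exact_mod_cast a1
      have a4 : c' < c + 1 := by exact_mod_cast a2
      omega
    have e2 : r = r' := by
      have a1 : (r : ℝ) < r' + 1 := by linarith only [h2.2]
      have a2 : (r' : ℝ) < r + 1 := by linarith only [h2.1]
      have a3 : r < r' + 1 := by exact_mod_cast a1
      have a4 : r' < r + 1 := by exact_mod_cast a2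
      omega
    subst e1
    subst e2
    rfl
  · exfalso
    simp only [corner] at h1 h2
    exact key c r hc hr c' hc' hL' h1.2 h1.1
  · exfalso
    simp only [corner] at h1 h2
    exact key c' r' hc' hr' c hc hL (by linarith only [h1.1]) (by linarith only [h1.2])
  · simp only [corner] at h1
    have hE := eL_bd (G.kd c).sig
    have hE' := eL_bd (G.kd c').sig
    have e1 : c = c' := by
      have a1 : (c : ℝ) < c' + 1 := by linarith only [hE, hE', h1.2]
      have a2 : (c' : ℝ) < c + 1 := by linarith only [hE, hE', h1.1]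
      have a3 : c < c' + 1 := by exact_mod_cast a1
      have a4 : c' < c + 1 := by exact_mod_cast a2
      omega
    subst e1
    rfl

theorem c5 (h1 : Helper2_Pack.C1Stmt) (h1' : C1Stmt) (h3 : C3Stmt) (h4 : C4Stmt)
    (hG1 : G1Stmt) (hG2 : G2Stmt) (hS2 : S2Stmt) : C5Stmt := by
  intro t G p hG hq
  obtain ⟨ht, -, hK, -⟩ := hG1 t G hG hq
  have ht60 : t ≤ 1 / 2 ^ 60 := ht.trans (by norm_num)
  have hK' : (1 : ℝ) ≤ G.K := by exact_mod_cast hK
  have hex : ∀ i : Cell G, ∃ j, NearC (1 / 1024) (corner i) (p.g j) := by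
    intro i
    obtain ⟨j, hj⟩ := c5_main h1 h1' h3 h4 hG2 hS2 p hG hq ht60 hK' _ i rfl
    refine ⟨j, NearC.mono ?_ hj⟩
    have := e_small hq (n := rank i + 1) (rank_lt_K i)
    linarith only [this]
  choose f hf using hex
  have hinj : Function.Injective f := by
    intro i i' hii
    obtain ⟨k, -, a1, a2, -⟩ := hf i
    obtain ⟨k', -, b1, b2, -⟩ := hf i'
    rw [← hii] at b1 b2
    rw [abs_le, Complex.sub_re] at a1 b1
    rw [abs_le, Complex.sub_im] at a2 b2
    apply corner_inj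
    · rw [abs_lt, Complex.sub_re]
      constructor <;> linarith only [a1.1, a1.2, b1.1, b1.2]
    · rw [abs_lt, Complex.sub_im]
      constructor <;> linarith only [a2.1, a2.2, b2.1, b2.2]
  choose k hk using hf
  let g0 : Motion := ⟨1, 0, by simp⟩
  refine ⟨fun c r => if h : ∃ (_ : c < G.M), r < G.top c then
      p.g (f (.inl ⟨⟨c, h.1⟩, ⟨r, h.2⟩⟩)) else g0,
    fun c r => if h : ∃ (_ : c < G.M), r < G.top c then
      k (.inl ⟨⟨c, h.1⟩, ⟨r, h.2⟩⟩) else 0,
    fun c => if h : ∃ (hc : c < G.M), (G.kd c).isL = true then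
      p.g (f (.inr ⟨⟨c, h.1⟩, h.2⟩)) else g0,
    fun c => if h : ∃ (hc : c < G.M), (G.kd c).isL = true then
      k (.inr ⟨⟨c, h.1⟩, h.2⟩) else 0, ?_⟩
  have hpr : ∀ c r, G.pres c r = true → ∃ (_ : c < G.M), r < G.top c := by
    intro c r h
    simp only [Lay.pres, Bool.and_eq_true, decide_eq_true_eq] at h
    exact ⟨h.1, h.2⟩
  constructor
  · intro c r h
    have h' := hpr c r h
    simp only [dif_pos h']
    exact p.sub _
  · intro c hc hL
    have h' : ∃ (_ : c < G.M), (G.kd c).isL = true := ⟨hc, hL⟩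
    simp only [dif_pos h']
    exact p.sub _
  · intro c r c' r' h h' hor
    have a1 := hpr c r h
    have a2 := hpr c' r' h'
    simp only [dif_pos a1, dif_pos a2]
    refine p.disj _ _ fun heq => ?_
    have := hinj heq
    simp only [Sum.inl.injEq, Sigma.mk.injEq, Fin.mk.injEq] at this
    obtain ⟨rfl, h5⟩ := this
    rw [heq_iff_eq, Fin.mk.injEq] at h5
    omega
  · intro c r c' h hc' hL
    have a1 := hpr c r h
    have a2 : ∃ (_ : c' < G.M), (G.kd c').isL = true := ⟨hc', hL⟩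
    simp only [dif_pos a1, dif_pos a2]
    refine p.disj _ _ fun heq => ?_
    have := hinj heq
    cases this
  · intro c r h
    have h' := hpr c r h
    simp only [dif_pos h']
    exact hk (.inl ⟨⟨c, h'.1⟩, ⟨r, h'.2⟩⟩)
  · intro c hc hL
    have h' : ∃ (_ : c < G.M), (G.kd c).isL = true := ⟨hc, hL⟩
    simp only [dif_pos h']
    exact hk (.inr ⟨⟨c, h'.1⟩, h'.2⟩)

end Pool.Agent.Helper2_Pak.H66
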