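import Pool.Agent.Helper2_Pak.StmtsK

/-!
# PAK1 module K7: the tiles are in the container
-/

namespace Pool.Agent.Helper2_Pak.H66

open Pool.Agent.Helper2_Pack (Motion)

section Basic

variable {t : ℝ}

theorem bump_nonneg (t e : ℝ) : 0 ≤ bump t e := le_max_left _ _

theorem dent_nonneg (t e : ℝ) : 0 ≤ dent t e := le_max_left _ _

theorem pit_nonneg (a b e : ℝ) : 0 ≤ pit a b e := le_max_left _ _

theorem slit_nonneg (t d e : ℝ) : 0 ≤ slit t d e := le_max_left _ _

theorem chamf_nonneg (t w e : ℝ) : 0 ≤ chamf t w e := le_max_left _ _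

theorem bump_le (ht : 0 < t) (e : ℝ) : bump t e ≤ t ^ 3 := by
  unfold bump
  refine max_le (by positivity) ?_
  linarith [abs_nonneg e]

theorem bump_zero {e : ℝ} (h : t ^ 3 ≤ |e|) : bump t e = 0 := by
  unfold bump
  exact max_eq_left (by linarith)

/-- powers of a small number -/
theorem pows (ht : 0 < t) (ht60 : t ≤ 1 / 2 ^ 60) : t ≤ 1 / 1048576 ∧ t ^ 2 ≤ t / 1048576 ∧
    t ^ 3 ≤ t / 1048576 ∧ t ^ 4 ≤ t ^ 3 / 1048576 ∧ t ^ 7 ≤ t ^ 3 / 1048576 ∧
    t ^ 8 ≤ t ^ 4 / 1048576 ∧ 0 < t ^ 2 ∧ 0 < t ^ 3 ∧ 0 < t ^ 4 ∧ 0 < t ^ 7 ∧ 0 < t ^ 8 := by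
  have h1 : t ≤ 1 / 1048576 := ht60.trans (by norm_num)
  have p2 : 0 < t ^ 2 := by positivity
  have p3 : 0 < t ^ 3 := by positivity
  have p4 : 0 < t ^ 4 := by positivity
  have p7 : 0 < t ^ 7 := by positivity
  have p8 : 0 < t ^ 8 := by positivity
  have e1 : ∀ a : ℝ, 0 < a → a * t ≤ a / 1048576 := fun a ha => by
    have := mul_le_mul_of_nonneg_left h1 ha.le
    linarith
  have h2 : t ^ 2 ≤ t / 1048576 := by
    have := e1 t ht
    calc t ^ 2 = t * t := by ring
      _ ≤ _ := this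
  have e2 : ∀ a : ℝ, 0 < a → a * t ≤ a := fun a ha => by
    have := e1 a ha
    linarith
  have h3 : t ^ 3 ≤ t / 1048576 := by
    have := e2 (t ^ 2) p2
    calc t ^ 3 = t ^ 2 * t := by ring
      _ ≤ t ^ 2 := this
      _ ≤ _ := h2
  have h4 : t ^ 4 ≤ t ^ 3 / 1048576 := by
    have := e1 (t ^ 3) p3
    calc t ^ 4 = t ^ 3 * t := by ring
      _ ≤ _ := this
  have h5 : t ^ 5 ≤ t ^ 4 := by
    have := e2 (t ^ 4) p4
    calc t ^ 5 = t ^ 4 * t := by ring
      _ ≤ _ := this
  have h6 : t ^ 6 ≤ t ^ 5 := by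
    have := e2 (t ^ 5) (by positivity)
    calc t ^ 6 = t ^ 5 * t := by ring
      _ ≤ _ := this
  have h7 : t ^ 7 ≤ t ^ 6 := by
    have := e2 (t ^ 6) (by positivity)
    calc t ^ 7 = t ^ 6 * t := by ring
      _ ≤ _ := this
  have h8 : t ^ 8 ≤ t ^ 4 / 1048576 := by
    have := e1 (t ^ 7) p7
    calc t ^ 8 = t ^ 7 * t := by ring
      _ ≤ t ^ 7 / 1048576 := this
      _ ≤ _ := by linarith only [h5, h6, h7]
  exact ⟨h1, h2, h3, h4, by linarith only [h4, h5, h6, h7], h8, p2, p3, p4, p7, p8⟩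

/-- the shape is nearly a square with chamfers -/
theorem shape_bd (ht : 0 < t) (ht60 : t ≤ 1 / 2 ^ 60) {w : ℂ} (hw : w ∈ shape t) :
    |w.re| ≤ 1 / 2 ∧ |w.im| ≤ hh t + t ^ 3 ∧ |w.re| + |w.im| ≤ 1 / 2 + hh t - t := by
  obtain ⟨h1, h2, h3, h4⟩ := hw
  obtain ⟨q1, q2, q3, -, -, -, -, q4, -, -, -⟩ := pows ht ht60
  have hre : |w.re| ≤ 1 / 2 := by
    rw [abs_le]
    unfold lf at h3
    unfold rt at h4
    constructor
    · linarith [pit_nonneg (t ^ 3 - t ^ 4) (-t ^ 4) (w.im + 1 / 4),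
        pit_nonneg (t ^ 3 - t ^ 4) (-t ^ 4) (w.im - 1 / 4),
        slit_nonneg t (1 - t ^ 3 / 4) (w.im + 1 / 16),
        slit_nonneg t (1 - 3 * t ^ 3 / 4) (w.im - 1 / 16), chamf_nonneg t (hh t) w.im]
    · linarith only [h4, pit_nonneg (t ^ 3 / 2) (-t ^ 3) (w.im + 5 / 16),
        pit_nonneg (t ^ 3 / 2) (t ^ 3) (w.im + 3 / 16),
        pit_nonneg (t ^ 3 / 2) (t ^ 3) (w.im - 3 / 16),
        pit_nonneg (t ^ 3 / 2) (-t ^ 3) (w.im - 5 / 16), chamf_nonneg t (hh t) w.im]
  unfold lo at h1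
  unfold hi at h2
  have d1 := dent_nonneg t (w.re + 1 / 4)
  have d2 := dent_nonneg t (w.re - 1 / 4)
  have c1 := chamf_nonneg t (1 / 2) w.re
  have c2 : |w.re| - (1 / 2 - t) ≤ chamf t (1 / 2) w.re := le_max_right _ _
  have hbb : bump t (w.re + 1 / 4) + bump t (w.re - 1 / 4) ≤ t ^ 3 := by
    rcases le_total 0 w.re with h | h
    · rw [bump_zero (e := w.re + 1 / 4) (by rw [abs_of_nonneg] <;> linarith only [ht60, q3, h]), zero_add]
      exact bump_le ht _
    · rw [bump_zero (e := w.re - 1 / 4) (by rw [abs_of_nonpos] <;> linarith only [ht60, q3, h]), add_zero]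
      exact bump_le ht _
  have him : |w.im| ≤ hh t + t ^ 3 := by
    rw [abs_le]
    constructor <;> linarith only [h1, q4, d1, d2, c1, h2, hbb]
  refine ⟨hre, him, ?_⟩
  by_cases hc : |w.re| ≤ 1 / 2 - t - t ^ 3
  · linarith only [him, hc]
  · rw [not_le] at hc
    have b1 : bump t (w.re + 1 / 4) = 0 := by
      apply bump_zero
      rcases le_total 0 w.re with h | h
      · rw [abs_of_nonneg] <;> linarith only [ht60, q3, h]
      · rw [abs_of_nonpos h] at hc
        rw [abs_of_nonpos] <;> linarith only [ht60, q3, hc]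
    have b2 : bump t (w.re - 1 / 4) = 0 := by
      apply bump_zero
      rcases le_total 0 w.re with h | h
      · rw [abs_of_nonneg h] at hc
        rw [abs_of_nonneg] <;> linarith only [ht60, q3, hc]
      · rw [abs_of_nonpos] <;> linarith only [ht60, q3, h]
    rw [b1, b2] at h2
    have : |w.im| ≤ hh t - chamf t (1 / 2) w.re := by
      rw [abs_le]
      constructor <;> linarith only [h1, d1, d2, h2]
    linarith only [c2, this]

theorem ramp_mem (ht : 0 < t) {x : ℝ} (x0 : 0 ≤ x) (x1 : x ≤ 1) : 0 ≤ ramp t x ∧ ramp t x ≤ 1 := by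
  unfold ramp
  refine ⟨le_min zero_le_one (le_min ?_ ?_), min_le_left _ _⟩
  · positivity
  · have : 0 ≤ 1 - x := by linarith
    positivity

theorem ramp_one (ht : 0 < t) {x : ℝ} (x0 : t / 4 ≤ x) (x1 : x ≤ 1 - t / 4) : ramp t x = 1 := by
  unfold ramp
  apply min_eq_left
  refine le_min ?_ ?_
  · rw [le_div_iff₀ ht]
    linarith
  · rw [le_div_iff₀ ht]
    linarith

/-- the chamfers are larger than the ramps -/
theorem ramp_chamf (ht : 0 < t) (ht60 : t ≤ 1 / 2 ^ 60) {f δ u x w : ℝ} (hf : |f| ≤ t / 64)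
    (hδ : |δ| ≤ t / 16) (hx : x = 1 / 2 + δ + u ∨ x = 1 / 2 + δ - u) (x0 : 0 ≤ x) (x1 : x ≤ 1)
    (hw : w ≤ 1 / 2 + t ^ 2) : |f * (1 - ramp t x)| ≤ chamf t w u := by
  obtain ⟨q1, q2, -⟩ := pows ht ht60
  by_cases h : t / 4 ≤ x ∧ x ≤ 1 - t / 4
  · rw [ramp_one ht h.1 h.2, sub_self, mul_zero, abs_zero]
    exact chamf_nonneg _ _ _
  · obtain ⟨r0, r1⟩ := ramp_mem ht x0 x1
    have h1 : |f * (1 - ramp t x)| ≤ t / 64 := by
      rw [abs_mul]
      calc |f| * |1 - ramp t x| ≤ |f| * 1 := by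
            apply mul_le_mul_of_nonneg_left _ (abs_nonneg f)
            rw [abs_le]
            constructor <;> linarith only [r1, r0]
        _ ≤ _ := by rw [mul_one]; exact hf
    have h2 : 1 / 2 - t / 4 - t / 16 ≤ |u| := by
      rw [abs_le] at hδ
      by_contra hcon
      rw [not_le, abs_lt] at hcon
      apply h
      rcases hx with hx | hx <;> constructor <;> linarith only [hδ, hcon, hx]
    have h3 : |u| - (w - t) ≤ chamf t w u := le_max_right _ _
    linarith

theorem bump_dent (ht : 0 < t) (ht60 : t ≤ 1 / 2 ^ 60) {e e' : ℝ} (h : |e - e'| ≤ t / 16) :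
    bump t e ≤ dent t e' := by
  obtain ⟨q1, -, q3, -, -, -, -, p3, -⟩ := pows ht ht60
  unfold bump
  refine max_le (dent_nonneg _ _) ?_
  rcases le_or_gt (t ^ 3) |e| with he | he
  · linarith [dent_nonneg t e']
  · have h1 : |e'| ≤ 1 / 128 := by
      rw [abs_le] at h ⊢
      rw [abs_lt] at he
      constructor <;> linarith only [ht60, h, q3, he]
    have h2 : 2 * t ^ 3 * (1 - 64 * |e'|) ≤ dent t e' := le_max_right _ _
    have h3 : t ^ 3 ≤ 2 * t ^ 3 * (1 - 64 * |e'|) := by nlinarith only [p3, h1]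
    linarith [abs_nonneg e]

/-- the ceiling bumps and the pits of a subtractor -/
theorem bump_pit (ht : 0 < t) (ht60 : t ≤ 1 / 2 ^ 60) {e δ : ℝ} (hδ : |δ| ≤ t / 16) :
    bump t (e + δ) ≤ pit (t ^ 3 - t ^ 4) (-t ^ 4) e + (t ^ 4 - t ^ 4 * δ) := by
  obtain ⟨q1, -, q3, q4, -, -, -, p3, p4, -⟩ := pows ht ht60
  have hd : 0 ≤ t ^ 4 - t ^ 4 * δ := by
    rw [abs_le] at hδ
    have : t ^ 4 * δ ≤ t ^ 4 * 1 := mul_le_mul_of_nonneg_left (by linarith) p4.le
    linarith
  have hp := pit_nonneg (t ^ 3 - t ^ 4) (-t ^ 4) e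
  rcases le_or_gt (t ^ 3) |e + δ| with he | he
  · rw [bump_zero he]
    linarith only [hd, hp]
  · have h1 : |e| ≤ 1 / 256 := by
      rw [abs_le] at hδ ⊢
      rw [abs_lt] at he
      constructor <;> linarith only [ht60, hδ, q3, he]
    rw [abs_le] at h1
    have h2 : pit (t ^ 3 - t ^ 4) (-t ^ 4) e = t ^ 3 - t ^ 4 + -t ^ 4 * e := by
      have b1 : |t ^ 4 * e| ≤ t ^ 4 / 256 := by
        rw [abs_mul, abs_of_pos p4]
        have : |e| ≤ 1 / 256 := abs_le.2 h1
        have := mul_le_mul_of_nonneg_left this p4.le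
        linarith only [this]
      rw [abs_le] at b1
      have b2 : t ^ 3 - t ^ 4 + -t ^ 4 * e ≤ (t ^ 3 - t ^ 4 + -t ^ 4 / 128) * (2 - 128 * e) := by
        have : (t ^ 3 - t ^ 4 + -t ^ 4 / 128) * (2 - 128 * e) =
          (t ^ 3 - t ^ 4 + -t ^ 4 / 128) + (t ^ 3 - t ^ 4 + -t ^ 4 / 128) * (1 - 128 * e) := by ring
        have b3 : 1 / 2 ≤ 1 - 128 * e := by linarith only [h1]
        have b4 : t ^ 3 / 2 ≤ t ^ 3 - t ^ 4 + -t ^ 4 / 128 := by linarith only [q4, p4]
        have b5 : t ^ 3 / 2 * (1 / 2) ≤ (t ^ 3 - t ^ 4 + -t ^ 4 / 128) * (1 - 128 * e) :=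
          mul_le_mul b4 b3 (by norm_num) (by linarith only [q4, p4])
        linarith only [q4, b1, b5]
      have b2' : t ^ 3 - t ^ 4 + -t ^ 4 * e ≤ (t ^ 3 - t ^ 4 - -t ^ 4 / 128) * (2 + 128 * e) := by
        have : (t ^ 3 - t ^ 4 - -t ^ 4 / 128) * (2 + 128 * e) =
          (t ^ 3 - t ^ 4 - -t ^ 4 / 128) + (t ^ 3 - t ^ 4 - -t ^ 4 / 128) * (1 + 128 * e) := by ring
        have b3 : 1 / 2 ≤ 1 + 128 * e := by linarith only [h1]
        have b4 : t ^ 3 / 2 ≤ t ^ 3 - t ^ 4 - -t ^ 4 / 128 := by linarith only [q4, p4]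
        have b5 : t ^ 3 / 2 * (1 / 2) ≤ (t ^ 3 - t ^ 4 - -t ^ 4 / 128) * (1 + 128 * e) :=
          mul_le_mul b4 b3 (by norm_num) (by linarith only [q4, p4])
        linarith only [q4, b1, b5]
      unfold pit
      rw [min_eq_left (le_min b2 b2'), max_eq_right]
      linarith only [q4, b1]
    rw [h2]
    unfold bump
    refine max_le (by linarith only [hd, h2 ▸ hp]) ?_
    have h3 : t ^ 4 * (e + δ) ≤ |e + δ| := by
      calc t ^ 4 * (e + δ) ≤ t ^ 4 * |e + δ| := mul_le_mul_of_nonneg_left (le_abs_self _) p4.le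
        _ ≤ 1 * |e + δ| := mul_le_mul_of_nonneg_right (by linarith only [ht60, q3, q4]) (abs_nonneg _)
        _ = _ := one_mul _
    linarith

end Basic

/-- the points of a tile in the four orientations -/
theorem tile_coord {t : ℝ} {k : ℕ} {v z : ℂ} (hk : k < 4) (hz : z ∈ tile t (mk k v)) :
    ∃ w ∈ shape t, (k = 0 ∧ z.re = v.re + w.re ∧ z.im = v.im + w.im) ∨
      (k = 1 ∧ z.re = v.re - w.im ∧ z.im = v.im + w.re) ∨
      (k = 2 ∧ z.re = v.re - w.re ∧ z.im = v.im - w.im) ∨
      (k = 3 ∧ z.re = v.re + w.im ∧ z.im = v.im - w.re) := by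
  obtain ⟨w, hw, rfl⟩ := hz
  refine ⟨w, hw, ?_⟩
  unfold Motion.app mk
  interval_cases k
  · left
    simp [add_comm]
  · right; left
    simp
    constructor <;> ring
  · right; right; left
    simp [Complex.I_sq]
    constructor <;> ring
  · right; right; right
    simp [Complex.I_pow_three]
    constructor <;> ring

/-- the heights of the points outside of the column, and crude bounds -/
theorem side {t : ℝ} (ht : 0 < t) (ht60 : t ≤ 1 / 2 ^ 60) {k c r : ℕ} {v z : ℂ} (hk : k < 4)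
    (hz : z ∈ tile t (mk k v)) (hv1 : |v.re - (c + 1 / 2)| ≤ t / 16)
    (hv2 : |v.im - (r + 1 / 2)| ≤ t / 16) :
    (z.re < c ∨ c + 1 < z.re → r + t / 2 ≤ z.im ∧ z.im ≤ r + 1 - t / 2) ∧
    (r - t / 8 ≤ z.im ∧ z.im ≤ r + 1 + t / 8) ∧
    (v.re - HX t k - (if k = 1 then t ^ 3 else 0) ≤ z.re) ∧
    (z.re ≤ v.re + HX t k + (if k = 3 then t ^ 3 else 0)) := by
  obtain ⟨q1, q2, q3, -, -, -, p2, p3, -⟩ := pows ht ht60
  obtain ⟨w, hw, hor⟩ := tile_coord hk hz
  obtain ⟨b1, b2, b3⟩ := shape_bd ht ht60 hw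
  have hlo := hw.1
  have hhi := hw.2.1
  rw [abs_le] at hv1 hv2
  have a1 := abs_le.1 b1
  have a2 := abs_le.1 b2
  have c1 := le_abs_self w.re
  have c2 := neg_abs_le w.re
  have c3 := le_abs_self w.im
  have c4 := neg_abs_le w.im
  have hlow : -hh t ≤ w.im := by
    unfold lo at hlo
    linarith only [hlo, dent_nonneg t (w.re + 1 / 4), dent_nonneg t (w.re - 1 / 4),
      chamf_nonneg t (1 / 2) w.re]
  have hhh : hh t = 1 / 2 + t ^ 2 / 2 := by unfold hh; ring
  rw [hhh] at b2 b3 a2 hlow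
  rcases hor with ⟨rfl, e1, e2⟩ | ⟨rfl, e1, e2⟩ | ⟨rfl, e1, e2⟩ | ⟨rfl, e1, e2⟩
  · refine ⟨?_, ⟨by linarith only [hv2, q2, hlow, e2], by linarith only [hv2, q2, q3, b2, c3, e2]⟩, ?_, ?_⟩
    · rintro (h | h)
      · constructor <;> linarith only [hv1, hv2, q2, b3, c2, c4, e1, e2, h, c3]
      · constructor <;> linarith only [hv1, hv2, q2, b3, c1, c4, e1, e2, h, c3]
    · simp only [HX]
      norm_num
      linarith only [b1, c2, e1]
    · simp only [HX]
      norm_num
      linarith only [b1, c1, e1]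
  · refine ⟨?_, ⟨by linarith only [hv2, b1, c2, e2], by linarith only [hv2, b1, c1, e2]⟩, ?_, ?_⟩
    · rintro (h | h)
      · constructor <;> linarith only [hv1, hv2, q2, b3, c2, c3, e1, e2, h, c1]
      · constructor <;> linarith only [hv1, hv2, q2, b3, c2, c4, e1, e2, h, c1]
    · simp only [HX, hhh]
      norm_num
      linarith only [a2, e1]
    · simp only [HX, hhh]
      norm_num
      linarith only [hlow, e1]
  · refine ⟨?_, ⟨by linarith only [hv2, q2, q3, a2, e2], by linarith only [hv2, q2, hlow, e2]⟩, ?_, ?_⟩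
    · rintro (h | h)
      · constructor <;> linarith only [hv1, hv2, q2, b3, c1, c3, e1, e2, h, c4]
      · constructor <;> linarith only [hv1, hv2, q2, b3, c2, c3, e1, e2, h, c4]
    · simp only [HX]
      norm_num
      linarith only [a1, e1]
    · simp only [HX]
      norm_num
      linarith only [b1, c2, e1]
  · refine ⟨?_, ⟨by linarith only [hv2, a1, e2], by linarith only [hv2, b1, c2, e2]⟩, ?_, ?_⟩
    · rintro (h | h)
      · constructor <;> linarith only [hv1, hv2, q2, b3, c1, c4, e1, e2, h, c2]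
      · constructor <;> linarith only [hv1, hv2, q2, b3, c1, c3, e1, e2, h, c2]
    · simp only [HX, hhh]
      norm_num
      linarith only [hlow, e1]
    · simp only [HX, hhh]
      norm_num
      linarith only [b2, c3, e1]

section Column

variable {t : ℝ} {G : Lay} {c : ℕ}

theorem locFl_le (ht : 0 < t) (ht60 : t ≤ 1 / 2 ^ 60) (hf : |G.fl t c| ≤ t / 64) {x : ℝ}
    (x0 : 0 ≤ x) (x1 : x ≤ 1) : G.locFl t c x ≤ t / 32 := by
  obtain ⟨q1, q2, q3, -, -, -, p2, p3, -⟩ := pows ht ht60
  obtain ⟨r0, r1⟩ := ramp_mem ht x0 x1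
  have h1 : G.fl t c * ramp t x ≤ t / 64 := by
    calc G.fl t c * ramp t x ≤ |G.fl t c * ramp t x| := le_abs_self _
      _ = |G.fl t c| * ramp t x := by rw [abs_mul, abs_of_nonneg r0]
      _ ≤ |G.fl t c| * 1 := mul_le_mul_of_nonneg_left r1 (abs_nonneg _)
      _ ≤ _ := by rw [mul_one]; exact hf
  unfold Lay.locFl
  split_ifs
  · linarith [dent_nonneg t (x - 1 / 4), dent_nonneg t (x - 3 / 4)]
  · linarith only [q3, h1, ht, bump_le ht (x - 1 / 4), bump_le ht (x - 3 / 4)]

theorem tipH_bd (ht : 0 < t) (σ : Bool) : 3 / 4 * t ^ 3 ≤ tipH t σ ∧ tipH t σ ≤ 5 / 4 * t ^ 3 := by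
  have : 0 < t ^ 3 := by positivity
  unfold tipH
  split_ifs <;> constructor <;> linarith

theorem eL_bd' (σ : Bool) : 14 / 32 ≤ eL σ ∧ eL σ ≤ 18 / 32 := by
  unfold eL
  split_ifs <;> norm_num

theorem topEq (hL : (G.kd c).isL = true ∨ (G.kd c).isR = true) : G.top c = G.N := by
  unfold Lay.top
  cases h : G.kd c <;> simp [h, Kind.isL, Kind.isR] at hL ⊢ <;> rfl

theorem le_locCe (ht : 0 < t) (ht60 : t ≤ 1 / 2 ^ 60) (hf : |G.ce t c - G.top c| ≤ t / 64) {x : ℝ}
    (x0 : 0 ≤ x) (x1 : x ≤ 1) : G.top c - t / 32 ≤ G.locCe t c x := by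
  obtain ⟨q1, q2, q3, q4, q5, -, p2, p3, p4, p7, -⟩ := pows ht ht60
  obtain ⟨r0, r1⟩ := ramp_mem ht x0 x1
  obtain ⟨u1, u2⟩ := tipH_bd ht (G.kd c).sig
  have hr4 : 0 ≤ t ^ 4 * ramp t x := mul_nonneg p4.le r0
  unfold Lay.locCe
  split_ifs with h1 h2 h3 h4 h5 h6
  · rw [topEq (Or.inl h1)]
    linarith only [q3, q4, p4, hr4, dent_nonneg t (x - 1 / 4)]
  · rw [topEq (Or.inl h1)]
    refine le_min (by linarith only [q3, q4, p4]) ?_
    have : 0 ≤ (1 + t / 4 - tipH t (G.kd c).sig) * ((1 - x) / t ^ 7) :=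
      mul_nonneg (by linarith) (div_nonneg (by linarith only [x1]) p7.le)
    linarith only [q3, q4, p4, u1, this]
  · rw [topEq (Or.inr h3)]
    refine le_min (by linarith only [q3, q4, p4]) ?_
    have : 0 ≤ (1 + t / 4 - tipH t (G.kd c).sig) * (x / t ^ 7) :=
      mul_nonneg (by linarith only [q3, q4, p4, u2]) (div_nonneg (by linarith only [x0]) p7.le)
    linarith only [q3, q4, p4, u1, this]
  · rw [topEq (Or.inr h3)]
    linarith only [q3, q4, p4, hr4, dent_nonneg t (x - 3 / 4)]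
  all_goals
    have h1 : -(t / 64) ≤ (G.ce t c - G.top c) * ramp t x := by
      have : |(G.ce t c - G.top c) * ramp t x| ≤ t / 64 := by
        calc |(G.ce t c - G.top c) * ramp t x| = |G.ce t c - G.top c| * ramp t x := by
              rw [abs_mul, abs_of_nonneg r0]
          _ ≤ |G.ce t c - G.top c| * 1 := mul_le_mul_of_nonneg_left r1 (abs_nonneg _)
          _ ≤ _ := by rw [mul_one]; exact hf
      rw [abs_le] at this
      exact this.1
  · linarith only [q3, h1, ht, bump_le ht (x - 1 / 4), bump_le ht (x - 3 / 4)]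
  · linarith only [q3, q4, p4, h1]
  · linarith [dent_nonneg t (x - 1 / 4), dent_nonneg t (x - 3 / 4)]

theorem bump_neg' (t e : ℝ) : bump t (-e) = bump t e := by
  unfold bump
  rw [abs_neg]

/-- the floor, V columns -/
theorem low0 (ht : 0 < t) (ht60 : t ≤ 1 / 2 ^ 60) (hf : |G.fl t c| ≤ t / 64)
    (hW : (G.kd c).isW = false) {w : ℂ} (hw : w ∈ shape t) {x : ℝ} (hx : x = 1 / 2 + w.re)
    (x0 : 0 ≤ x) (x1 : x ≤ 1) : G.locFl t c x ≤ G.fl t c + hh t + w.im := by
  have h1 := hw.1
  unfold lo at h1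
  have hr := ramp_chamf ht ht60 (f := G.fl t c) (δ := 0) (u := w.re) (x := x) (w := 1 / 2) hf
    (by simpa using by positivity) (Or.inl (by linarith)) x0 x1 (by linarith [sq_nonneg t])
  rw [abs_le] at hr
  have b1 : bump t (x - 1 / 4) ≤ dent t (w.re + 1 / 4) := by
    apply bump_dent ht ht60
    rw [hx]
    ring_nf
    simpa using by positivity
  have b2 : bump t (x - 3 / 4) ≤ dent t (w.re - 1 / 4) := by
    apply bump_dent ht ht60
    rw [hx]
    ring_nf
    simpa using by positivity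
  unfold Lay.locFl
  rw [hW, if_neg (by simp)]
  have e : G.fl t c * ramp t x = G.fl t c - G.fl t c * (1 - ramp t x) := by ring
  rw [e]
  linarith only [h1, b1, b2, hr.1]

/-- the floor, W columns -/
theorem low2 (ht : 0 < t) (ht60 : t ≤ 1 / 2 ^ 60) (hf : |G.fl t c| ≤ t / 64)
    (hW : (G.kd c).isW = true) {w : ℂ} (hw : w ∈ shape t) {x : ℝ} (hx : x = 1 / 2 - w.re)
    (x0 : 0 ≤ x) (x1 : x ≤ 1) : G.locFl t c x ≤ G.fl t c + hh t - w.im := by
  have h1 := hw.2.1
  unfold hi at h1
  have hr := ramp_chamf ht ht60 (f := G.fl t c) (δ := 0) (u := w.re) (x := x) (w := 1 / 2) hf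
    (by simpa using by positivity) (Or.inr (by linarith only [hx])) x0 x1 (by linarith [sq_nonneg t])
  rw [abs_le] at hr
  have b1 : bump t (w.re - 1 / 4) ≤ dent t (x - 1 / 4) := by
    rw [← bump_neg']
    apply bump_dent ht ht60
    rw [hx]
    ring_nf
    simpa using by positivity
  have b2 : bump t (w.re + 1 / 4) ≤ dent t (x - 3 / 4) := by
    rw [← bump_neg']
    apply bump_dent ht ht60
    rw [hx]
    ring_nf
    simpa using by positivity
  unfold Lay.locFl
  rw [hW, if_pos rfl]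
  have e : G.fl t c * ramp t x = G.fl t c - G.fl t c * (1 - ramp t x) := by ring
  rw [e]
  linarith [hr.1]

variable {B δ x : ℝ}

theorem high0 (ht : 0 < t) (ht60 : t ≤ 1 / 2 ^ 60) (hf : |G.ce t c - G.top c| ≤ t / 64)
    (hW : (G.kd c).isW = false) (hL : (G.kd c).isL = false) (hR : (G.kd c).isR = false)
    (hs : G.spc c (G.top c - 1) = false) (hδ : |δ| ≤ t / 16) (hB : B + 2 * hh t ≤ G.ce t c)
    {w : ℂ} (hw : w ∈ shape t) (hx : x = 1 / 2 + δ + w.re)
    (x0 : 0 ≤ x) (x1 : x ≤ 1) : B + hh t + w.im ≤ G.locCe t c x := by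
  have h1 := hw.2.1
  unfold hi at h1
  have hr := ramp_chamf ht ht60 (f := G.ce t c - G.top c) (δ := δ) (u := w.re) (x := x)
    (w := 1 / 2) hf hδ (Or.inl (by linarith only [hx])) x0 x1 (by linarith only [sq_nonneg t])
  rw [abs_le] at hr
  have b1 : bump t (w.re + 1 / 4) ≤ dent t (x - 1 / 4) := by
    apply bump_dent ht ht60
    rw [show w.re + 1 / 4 - (x - 1 / 4) = -δ by rw [hx]; ring, abs_neg]
    exact hδ
  have b2 : bump t (w.re - 1 / 4) ≤ dent t (x - 3 / 4) := by
    apply bump_dent ht ht60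
    rw [show w.re - 1 / 4 - (x - 3 / 4) = -δ by rw [hx]; ring, abs_neg]
    exact hδ
  unfold Lay.locCe
  rw [hL, hR, hW, hs]
  simp only [Bool.false_eq_true, if_false]
  have e : (G.ce t c - G.top c) * ramp t x =
    (G.ce t c - G.top c) - (G.ce t c - G.top c) * (1 - ramp t x) := by ring
  rw [e]
  linarith [hr.2]

theorem high1 (ht : 0 < t) (ht60 : t ≤ 1 / 2 ^ 60) (hf : |G.ce t c - G.top c| ≤ t / 64)
    (hW : (G.kd c).isW = false) (hL : (G.kd c).isL = false) (hR : (G.kd c).isR = false)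
    (hs : G.spc c (G.top c - 1) = true) (hδ : |δ| ≤ t / 16) (hB : B + 1 ≤ G.ce t c)
    {w : ℂ} (hw : w ∈ shape t) (hx : x = 1 / 2 + δ - w.im)
    (x0 : 0 ≤ x) (x1 : x ≤ 1) : B + 1 / 2 + w.re ≤ G.locCe t c x := by
  have h1 := hw.2.2.2
  unfold rt at h1
  have hr := ramp_chamf ht ht60 (f := G.ce t c - G.top c) (δ := δ) (u := w.im) (x := x)
    (w := hh t) hf hδ (Or.inr (by linarith only [hx])) x0 x1 (by unfold hh; linarith only [sq_nonneg t])
  rw [abs_le] at hr
  unfold Lay.locCe
  rw [hL, hR, hW, hs]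
  simp only [Bool.false_eq_true, if_false, if_true]
  have e : (G.ce t c - G.top c) * ramp t x =
    (G.ce t c - G.top c) - (G.ce t c - G.top c) * (1 - ramp t x) := by ring
  rw [e]
  linarith [hr.2, pit_nonneg (t ^ 3 / 2) (-t ^ 3) (w.im + 5 / 16),
        pit_nonneg (t ^ 3 / 2) (t ^ 3) (w.im + 3 / 16),
        pit_nonneg (t ^ 3 / 2) (t ^ 3) (w.im - 3 / 16),
        pit_nonneg (t ^ 3 / 2) (-t ^ 3) (w.im - 5 / 16)]

theorem high2 (ht : 0 < t) (ht60 : t ≤ 1 / 2 ^ 60) (hf : |G.ce t c - G.top c| ≤ t / 64)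
    (hW : (G.kd c).isW = true) (hL : (G.kd c).isL = false) (hR : (G.kd c).isR = false)
    (hδ : |δ| ≤ t / 16) (hB : B + 2 * hh t ≤ G.ce t c)
    {w : ℂ} (hw : w ∈ shape t) (hx : x = 1 / 2 + δ - w.re)
    (x0 : 0 ≤ x) (x1 : x ≤ 1) : B + hh t - w.im ≤ G.locCe t c x := by
  have h1 := hw.1
  unfold lo at h1
  have hr := ramp_chamf ht ht60 (f := G.ce t c - G.top c) (δ := δ) (u := w.re) (x := x)
    (w := 1 / 2) hf hδ (Or.inr (by linarith)) x0 x1 (by linarith [sq_nonneg t])
  rw [abs_le] at hr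
  have b1 : bump t (x - 1 / 4) ≤ dent t (w.re - 1 / 4) := by
    rw [← bump_neg']
    apply bump_dent ht ht60
    rw [show -(x - 1 / 4) - (w.re - 1 / 4) = -δ by rw [hx]; ring, abs_neg]
    exact hδ
  have b2 : bump t (x - 3 / 4) ≤ dent t (w.re + 1 / 4) := by
    rw [← bump_neg']
    apply bump_dent ht ht60
    rw [show -(x - 3 / 4) - (w.re + 1 / 4) = -δ by rw [hx]; ring, abs_neg]
    exact hδ
  unfold Lay.locCe
  rw [hL, hR, hW]
  simp only [Bool.false_eq_true, if_false, if_true]
  have e : (G.ce t c - G.top c) * ramp t x =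
    (G.ce t c - G.top c) - (G.ce t c - G.top c) * (1 - ramp t x) := by ring
  rw [e]
  linarith only [hB, h1, b1, b2, hr.2]

theorem high3 (ht : 0 < t) (ht60 : t ≤ 1 / 2 ^ 60) (hf : |G.ce t c - G.top c| ≤ t / 64)
    (hW : (G.kd c).isW = true) (hL : (G.kd c).isL = false) (hR : (G.kd c).isR = false)
    (hδ : |δ| ≤ t / 16) (hB : B + 1 + t ^ 4 - t ^ 4 * δ ≤ G.ce t c)
    {w : ℂ} (hw : w ∈ shape t) (hx : x = 1 / 2 + δ + w.im)
    (x0 : 0 ≤ x) (x1 : x ≤ 1) : B + 1 / 2 - w.re ≤ G.locCe t c x := by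
  obtain ⟨q1, q2, q3, -, -, -, p2, p3, p4, -⟩ := pows ht ht60
  have h1 := hw.2.2.1
  unfold lf at h1
  have hr := ramp_chamf ht ht60 (f := G.ce t c - G.top c) (δ := δ) (u := w.im) (x := x)
    (w := hh t) hf hδ (Or.inl (by linarith only [hx])) x0 x1 (by unfold hh; linarith only [sq_nonneg t])
  rw [abs_le] at hr
  have e1 : x - 1 / 4 = (w.im + 1 / 4) + δ := by rw [hx]; ring
  have e2 : x - 3 / 4 = (w.im - 1 / 4) + δ := by rw [hx]; ring
  have hd : 0 ≤ t ^ 4 - t ^ 4 * δ := by
    rw [abs_le] at hδ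
    have : t ^ 4 * δ ≤ t ^ 4 * 1 := mul_le_mul_of_nonneg_left (by linarith only [ht60, hδ]) p4.le
    linarith only [this]
  have hb : bump t (x - 1 / 4) + bump t (x - 3 / 4) ≤
      pit (t ^ 3 - t ^ 4) (-t ^ 4) (w.im + 1 / 4) + pit (t ^ 3 - t ^ 4) (-t ^ 4) (w.im - 1 / 4) +
        (t ^ 4 - t ^ 4 * δ) := by
    have c1 := bump_pit ht ht60 (e := w.im + 1 / 4) hδ
    have c2 := bump_pit ht ht60 (e := w.im - 1 / 4) hδ
    rw [← e1] at c1
    rw [← e2] at c2
    have n1 := pit_nonneg (t ^ 3 - t ^ 4) (-t ^ 4) (w.im + 1 / 4)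
    have n2 := pit_nonneg (t ^ 3 - t ^ 4) (-t ^ 4) (w.im - 1 / 4)
    rcases le_total x (1 / 2) with h | h
    · rw [bump_zero (e := x - 3 / 4) (by rw [abs_of_nonpos] <;> linarith only [ht60, q3, h])]
      linarith only [c1, n2]
    · rw [bump_zero (e := x - 1 / 4) (by rw [abs_of_nonneg] <;> linarith only [ht60, q3, h])]
      linarith only [c2, n1]
  unfold Lay.locCe
  rw [hL, hR, hW]
  simp only [Bool.false_eq_true, if_false, if_true]
  have e : (G.ce t c - G.top c) * ramp t x =
    (G.ce t c - G.top c) - (G.ce t c - G.top c) * (1 - ramp t x) := by ring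
  rw [e]
  linarith only [hB, h1, hb, hr.2, slit_nonneg t (1 - t ^ 3 / 4) (w.im + 1 / 16),
        slit_nonneg t (1 - 3 * t ^ 3 / 4) (w.im - 1 / 16)]

theorem highP (ht : 0 < t) (ht60 : t ≤ 1 / 2 ^ 60)
    (hP : (G.kd c).isL = true ∨ (G.kd c).isR = true) (hB : B + 2 * hh t ≤ G.N + t ^ 8)
    {w : ℂ} (hw : w ∈ shape t) (hx : x = 1 / 2 + w.re)
    (x0 : 0 ≤ x) (x1 : x ≤ 1) : B + hh t + w.im ≤ G.locCe t c x := by
  obtain ⟨q1, q2, q3, q4, q7, q8, p2, p3, p4, p7, p8⟩ := pows ht ht60
  obtain ⟨r0, r1⟩ := ramp_mem ht x0 x1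
  obtain ⟨u1, u2⟩ := tipH_bd ht (G.kd c).sig
  obtain ⟨v1, v2⟩ := eL_bd' (G.kd c).sig
  have h1 := hw.2.1
  unfold hi at h1
  have hc : |w.re| - (1 / 2 - t) ≤ chamf t (1 / 2) w.re := le_max_right _ _
  have hc0 := chamf_nonneg t (1 / 2) w.re
  have e1 : w.re + 1 / 4 = x - 1 / 4 := by rw [hx]; ring
  have e2 : w.re - 1 / 4 = x - 3 / 4 := by rw [hx]; ring
  rw [e1, e2] at h1
  have hbd : ∀ y : ℝ, bump t y ≤ dent t y := fun y => bump_dent ht ht60 (by
    rw [sub_self, abs_zero]
    positivity)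
  have hcr : t ^ 8 - chamf t (1 / 2) w.re ≤ t ^ 4 * ramp t x := by
    by_cases h : t / 4 ≤ x ∧ x ≤ 1 - t / 4
    · rw [ramp_one ht h.1 h.2]
      linarith only [q8, p8, hc0]
    · have h2 : 1 / 2 - t / 4 ≤ |w.re| := by
        by_contra hcon
        rw [not_le, abs_lt] at hcon
        apply h
        constructor <;> linarith only [hx, hcon]
      have : 0 ≤ t ^ 4 * ramp t x := mul_nonneg p4.le r0
      linarith only [q3, q4, q8, p8, hc, h2, this]
  have hb1 := bump_le ht (x - 1 / 4)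
  have hb2 := bump_le ht (x - 3 / 4)
  have hn1 := bump_nonneg t (x - 1 / 4)
  have hn2 := bump_nonneg t (x - 3 / 4)
  have hroom : ∀ y : ℝ, 0 ≤ y → (y < t ^ 7 → bump t (x - 1 / 4) = 0 ∧ bump t (x - 3 / 4) = 0) →
      B + hh t + w.im ≤ min (G.N + 1 + t / 4) (G.N + tipH t (G.kd c).sig +
        (1 + t / 4 - tipH t (G.kd c).sig) * (y / t ^ 7)) := by
    intro y hy0 hy
    refine le_min (by linarith only [hB, q3, q4, q8, p8, h1, hc0, hb1, hb2]) ?_
    rcases lt_or_ge y (t ^ 7) with h | h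
    · obtain ⟨z1, z2⟩ := hy h
      rw [z1, z2] at h1
      have : 0 ≤ (1 + t / 4 - tipH t (G.kd c).sig) * (y / t ^ 7) :=
        mul_nonneg (by linarith only [q3, q4, q8, p8, u2]) (div_nonneg hy0 p7.le)
      linarith only [hB, q4, q8, p8, u1, h1, hc0, this]
    · have h2 : 1 ≤ y / t ^ 7 := by
        rw [le_div_iff₀ p7]
        linarith only [h]
      have : (1 + t / 4 - tipH t (G.kd c).sig) * 1 ≤
          (1 + t / 4 - tipH t (G.kd c).sig) * (y / t ^ 7) :=
        mul_le_mul_of_nonneg_left h2 (by linarith only [q3, q4, q8, p8, u2])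
      linarith
  unfold Lay.locCe
  split_ifs with h1' h2' h3' h4'
  · have z2 : bump t (x - 3 / 4) = 0 := by
      apply bump_zero
      rw [abs_of_nonpos] <;> linarith only [q3, q4, q8, p8, v2, h2']
    have := hbd (x - 1 / 4)
    rw [z2] at h1
    linarith only [hB, h1, hcr, this]
  · apply hroom _ (by linarith only [x1])
    intro h
    constructor
    · apply bump_zero
      rw [abs_of_nonneg] <;> linarith only [ht60, q3, q7, h]
    · apply bump_zero
      rw [abs_of_nonneg] <;> linarith only [ht60, q3, q7, h]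
  · apply hroom _ x0
    intro h
    constructor
    · apply bump_zero
      rw [abs_of_nonpos] <;> linarith only [ht60, q3, q7, h]
    · apply bump_zero
      rw [abs_of_nonpos] <;> linarith only [ht60, q3, v2, h4']
  · rw [not_le] at h4'
    have z2 : bump t (x - 1 / 4) = 0 := by
      apply bump_zero
      rw [abs_of_nonneg] <;> linarith only [q3, q4, q8, p8, v1, h4']
    have := hbd (x - 3 / 4)
    rw [z2] at h1
    linarith only [hB, h1, hcr, this]
  · exact absurd hP (by simp_all)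
  · exact absurd hP (by simp_all)
  · exact absurd hP (by simp_all)

theorem ramp_bd (hL : (G.kd c).isL = true ∨ (G.kd c).isR = true) : (G.kd c).isW = false := by
  cases h : G.kd c <;> simp [h, Kind.isL, Kind.isR] at hL ⊢ <;> rfl

end Column

theorem k7 (hG1 : G1Stmt) (h5 : K5Stmt) (h6 : K6Stmt) : K7Stmt := by
  intro t G xx hOK hSm hSol c r hpres z hz
  have ht := hSm.pos
  obtain ⟨ht120, -, -, hD, hfc, -⟩ := hG1 t G hOK hSm
  have ht60 : t ≤ 1 / 2 ^ 60 := ht120.trans (by norm_num)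
  obtain ⟨p1, p2, p3, -, -, p6, p7⟩ := h5 t G xx hOK hSm hSol
  obtain ⟨s1, s2, s3⟩ := h6 t G xx hOK hSm hSol
  obtain ⟨q1, q2, q3, q4, q7, q8, r2, r3, r4, r7, r8⟩ := pows ht ht60
  obtain ⟨m1, m2, hk⟩ := p1 c r hpres
  obtain ⟨d1, d2, d3, d4⟩ := side ht ht60 hk hz m1 m2
  have hcr : c < G.M ∧ r < G.top c := by
    simpa [Lay.pres] using hpres
  obtain ⟨hcM, hrT⟩ := hcr
  have hr1 : r % 2 = 1 → (1 : ℝ) ≤ r := by
    intro h
    have : 1 ≤ r := by omega
    exact_mod_cast this
  have hodd : (z.re < c ∨ c + 1 < z.re) → r % 2 = 1 := by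
    intro h
    by_contra hcon
    have he : r % 2 = 0 := by omega
    obtain ⟨e1, e2⟩ := p2 c r hpres he
    have e3 : HX t (G.ori c r) = 1 / 2 := by
      unfold HX
      rw [if_pos e2]
    have e4 : G.ori c r ≠ 1 := by omega
    have e5 : G.ori c r ≠ 3 := by omega
    rw [e1, e3, if_neg e4] at d3
    rw [e1, e3, if_neg e5] at d4
    rcases h with h | h <;> linarith only [d3, h, d4]
  have hHX : HX t (G.ori c r) ≤ 1 / 2 + t ^ 2 / 2 := by
    unfold HX hh
    split_ifs <;> linarith only [r2]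
  have hite : ∀ (P : Prop) [Decidable P], (if P then t ^ 3 else 0) ≤ t ^ 3 := by
    intro P _
    split_ifs <;> linarith only [q4, q8, r8]
  have htrap : ∀ y : ℝ, t / 2 ≤ y → y ≤ 1 - t / 2 → trap t y = 1 := by
    intro y y0 y1
    unfold trap
    apply min_eq_left
    refine le_min ?_ ?_
    · rw [le_sub_iff_add_le, le_div_iff₀ ht]
      linarith only [y0]
    · rw [le_sub_iff_add_le, le_div_iff₀ ht]
      linarith only [y1]
  -- points on the sides of a present neighbouring column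
  have hcol : ∀ X : ℕ, G.pres X r = true → 1 ≤ r → (X : ℝ) ≤ z.re → z.re ≤ X + 1 →
      r + t / 2 ≤ z.im → z.im ≤ r + 1 - t / 2 → z ∈ G.cont t := by
    intro X hX hr x0 x1 y0 y1
    have hX' : X < G.M ∧ r < G.top X := by
      simpa [Lay.pres] using hX
    obtain ⟨f1, f2⟩ := hfc X hX'.1
    have g1 := locFl_le (G := G) (c := X) ht ht60 f1 (x := z.re - X) (by linarith only [x0]) (by linarith only [x1])
    have g2 := le_locCe (G := G) (c := X) ht ht60 f2 (x := z.re - X) (by linarith only [x0]) (by linarith only [x1])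
    have g3 : (r : ℝ) + 1 ≤ G.top X := by exact_mod_cast hX'.2
    have g4 : (1 : ℝ) ≤ r := by exact_mod_cast hr
    refine Or.inl (Set.mem_iUnion.2 ⟨⟨X, hX'.1⟩, x0, x1, ?_, ?_⟩)
    · show G.locFl t X (z.re - X) ≤ z.im
      linarith only [q3, q4, q8, r8, y0, g1]
    · show z.im ≤ G.locCe t X (z.re - X)
      linarith only [q3, q4, q8, r8, y1, g2, g3]
  rw [abs_le] at m1 m2
  rcases lt_or_ge z.re c with hlt | hge
  · -- on the left
    have ho := hodd (Or.inl hlt)
    obtain ⟨y0, y1⟩ := d1 (Or.inl hlt)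
    by_cases hp : c ≠ 0 ∧ G.pres (c - 1) r = true
    · obtain ⟨hc, hp⟩ := hp
      have hcc : (((c - 1 : ℕ)) : ℝ) = c - 1 := by
        rw [Nat.cast_sub (by omega)]
        simp
      refine hcol (c - 1) hp (by omega) ?_ ?_ y0 y1
      · rw [hcc]
        have := hite (G.ori c r = 1)
        linarith only [ht120, q2, q3, m1, d3, hHX, this]
      · rw [hcc]
        linarith only [hlt]
    · have hw : G.wallL c r = true := by
        unfold Lay.wallL
        rw [hpres]
        by_cases hc : c = 0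
        · simp [hc]
        · have : G.pres (c - 1) r = false := by
            by_contra hcon
            exact hp ⟨hc, by simpa using hcon⟩
          simp [this]
      obtain ⟨w1, w2⟩ := p6 c r hw
      rw [if_pos ho] at w2
      rw [if_neg w1] at d3
      refine Or.inr ⟨c, r, ho, ?_, Or.inl ⟨hw, ?_, hlt.le⟩⟩
      · rw [htrap _ (by linarith only [y0]) (by linarith only [y1])]
        norm_num
      · rw [htrap _ (by linarith only [y0]) (by linarith only [y1])]
        linarith only [d3, w2]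
  rcases lt_or_ge (c + 1 : ℝ) z.re with hgt | hle
  · -- on the right
    have ho := hodd (Or.inr hgt)
    obtain ⟨y0, y1⟩ := d1 (Or.inr hgt)
    by_cases hp : G.pres (c + 1) r = true
    · refine hcol (c + 1) hp (by omega) ?_ ?_ y0 y1
      · push_cast
        linarith only [hgt]
      · push_cast
        have := hite (G.ori c r = 3)
        linarith only [ht120, q2, q3, m1, d4, hHX, this]
    · have hw : G.wallR (c + 1) r = true := by
        unfold Lay.wallR
        have : G.pres (c + 1) r = false := by simpa using hp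
        simp [this, hpres]
      obtain ⟨w1, w2⟩ := p7 c r hw
      rw [if_pos ho] at w2
      rw [if_neg w1] at d4
      refine Or.inr ⟨c + 1, r, ho, ?_, Or.inr ⟨hw, ?_, ?_⟩⟩
      · rw [htrap _ (by linarith only [y0]) (by linarith only [y1])]
        norm_num
      · push_cast
        linarith only [hgt]
      · rw [htrap _ (by linarith only [y0]) (by linarith only [y1])]
        push_cast
        linarith only [d4, w2]
  -- in the column
  obtain ⟨f1, f2⟩ := hfc c hcM
  have x0 : 0 ≤ z.re - c := by linarith only [hge]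
  have x1 : z.re - c ≤ 1 := by linarith only [hle]
  refine Or.inl (Set.mem_iUnion.2 ⟨⟨c, hcM⟩, hge, hle, ?_, ?_⟩)
  · show G.locFl t c (z.re - c) ≤ z.im
    rcases Nat.eq_zero_or_pos r with h0 | h0
    · subst h0
      obtain ⟨e1, e2⟩ := p2 c 0 hpres rfl
      have e3 := p3 c hcM
      obtain ⟨w, hw, hor⟩ := tile_coord hk hz
      have e4 : (G.ctr t xx c 0).im = G.fl t c + HY t (G.ori c 0) := by
        rw [← e3]
        rfl
      have e5 : HY t (G.ori c 0) = hh t := by
        unfold HY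
        rw [if_pos e2]
      rw [e5] at e4
      have e6 : (G.kd c).isW = true → G.ori c 0 ≠ 0 := by
        intro h
        unfold Lay.ori
        rw [h, if_pos rfl]
        omega
      have e7 : (G.kd c).isW = false → G.ori c 0 ≠ 2 := by
        intro h
        unfold Lay.ori
        rw [h, if_neg (by simp)]
        split_ifs <;> omega
      rcases hor with ⟨k0, a1, a2⟩ | ⟨k1, a1, a2⟩ | ⟨k2, a1, a2⟩ | ⟨k3, a1, a2⟩
      · have hW : (G.kd c).isW = false := by
          by_contra hcon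
          exact e6 (by simpa using hcon) k0
        have := low0 ht ht60 f1 hW hw (x := z.re - c) (by rw [a1, e1]; ring) x0 x1
        rw [a2, e4]
        linarith only [this]
      · omega
      · have hW : (G.kd c).isW = true := by
          by_contra hcon
          exact e7 (by simpa using hcon) k2
        have := low2 ht ht60 f1 hW hw (x := z.re - c) (by rw [a1, e1]; ring) x0 x1
        rw [a2, e4]
        linarith only [this]
      · omega
    · have g1 := locFl_le (G := G) (c := c) ht ht60 f1 x0 x1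
      have g2 : (1 : ℝ) ≤ r := by exact_mod_cast h0
      linarith only [ht120, g1, g2, d2.1]
  · show z.im ≤ G.locCe t c (z.re - c)
    rcases (by omega : r + 1 < G.top c ∨ r = G.top c - 1) with h | h
    · have g2 := le_locCe (G := G) (c := c) ht ht60 f2 x0 x1
      have g3 : (r : ℝ) + 1 + 1 ≤ G.top c := by exact_mod_cast h
      linarith only [ht120, g2, g3, d2.2]
    · obtain ⟨w, hw, hor⟩ := tile_coord hk hz
      have hδ : |(G.ctr t xx c r).re - (c + 1 / 2)| ≤ t / 16 := abs_le.2 m1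
      have e4 : (G.ctr t xx c r).im = G.bot t xx c r + HY t (G.ori c r) := rfl
      by_cases hP : (G.kd c).isL = true ∨ (G.kd c).isR = true
      · have hT : G.top c = G.N := topEq hP
        rw [hT] at h
        obtain ⟨u1, u2⟩ := s3 c hcM hP
        rw [← h] at u1 u2
        have hre : r % 2 = 0 := by
          rw [h]
          unfold Lay.N
          omega
        obtain ⟨e1, e2⟩ := p2 c r hpres hre
        rcases hor with ⟨k0, a1, a2⟩ | ⟨k1, a1, a2⟩ | ⟨k2, a1, a2⟩ | ⟨k3, a1, a2⟩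
        · have hS := hSol.port c hcM hP
          have hS2 : t ^ 4 * ∑ r ∈ (Finset.range G.N).filter (fun r => G.spc c r = true), xx c r
              ≤ t ^ 8 := by
            calc _ ≤ t ^ 4 * t ^ 4 := mul_le_mul_of_nonneg_left ((le_abs_self _).trans hS) r4.le
              _ = t ^ 8 := by ring
          have := highP (G := G) (c := c) (B := G.bot t xx c r) ht ht60 hP (by linarith only [u2, hS2]) hw
            (x := z.re - c) (by rw [a1, e1]; ring) x0 x1
          rw [a2, e4, k0]
          simp only [HY]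
          norm_num
          linarith only [this]
        · omega
        · omega
        · omega
      · have hL : (G.kd c).isL = false := by
          by_contra hcon
          exact hP (Or.inl (by simpa using hcon))
        have hR : (G.kd c).isR = false := by
          by_contra hcon
          exact hP (Or.inr (by simpa using hcon))
        rcases Bool.eq_false_or_eq_true (G.kd c).isW with hW | hW
        · have u := s2 c hcM hW
          rw [← h] at u
          have hw2 : G.ori c r ≠ 0 ∧ G.ori c r ≠ 1 := by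
            unfold Lay.ori
            rw [hW, if_pos rfl]
            omega
          rcases hor with ⟨k0, a1, a2⟩ | ⟨k1, a1, a2⟩ | ⟨k2, a1, a2⟩ | ⟨k3, a1, a2⟩
          · exact absurd k0 hw2.1
          · exact absurd k1 hw2.2
          · have u1 : G.bot t xx c r + 2 * hh t ≤ G.ce t c := by
              rcases u with ⟨-, u⟩ | ⟨u, -⟩
              · simpa [HY] using u
              · omega
            have := high2 (G := G) (c := c) (B := G.bot t xx c r) ht ht60 f2 hW hL hR hδ u1 hw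
              (x := z.re - c) (by rw [a1]; ring) x0 x1
            rw [a2, e4, k2]
            simp only [HY]
            norm_num
            linarith only [this]
          · have u1 : G.bot t xx c r + 1 + t ^ 4 - t ^ 4 * ((G.ctr t xx c r).re - (c + 1 / 2)) ≤
                G.ce t c := by
              rcases u with ⟨u, -⟩ | ⟨-, u⟩
              · omega
              · simp only [HY] at u
                norm_num at u ⊢
                linarith only [u]
            have := high3 (G := G) (c := c) (B := G.bot t xx c r) ht ht60 f2 hW hL hR hδ u1 hw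
              (x := z.re - c) (by rw [a1]; ring) x0 x1
            rw [a2, e4, k3]
            simp only [HY]
            norm_num
            linarith only [this]
        · have u := s1 c hcM hL hR hW
          rw [← h] at u
          have hs := h ▸ (rfl : G.spc c r = G.spc c r)
          rcases Bool.eq_false_or_eq_true (G.spc c r) with hsp | hsp
          · have hk1 : G.ori c r = 1 := by
              unfold Lay.ori
              rw [hW, hsp]
              rfl
            rw [hk1] at u hor e4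
            have u1 : G.bot t xx c r + 1 ≤ G.ce t c := by
              simp only [HY] at u
              norm_num at u ⊢
              linarith only [u]
            rcases hor with ⟨k0, a1, a2⟩ | ⟨k1, a1, a2⟩ | ⟨k2, a1, a2⟩ | ⟨k3, a1, a2⟩
            · omega
            · have := high1 (G := G) (c := c) (B := G.bot t xx c r) ht ht60 f2 hW hL hR
                (h ▸ hsp) hδ u1 hw (x := z.re - c) (by rw [a1]; ring) x0 x1
              rw [a2, e4]
              simp only [HY]
              norm_num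
              linarith only [this]
            · omega
            · omega
          · have hk0 : G.ori c r = 0 := by
              unfold Lay.ori
              rw [hW, hsp]
              rfl
            rw [hk0] at u hor e4
            have u1 : G.bot t xx c r + 2 * hh t ≤ G.ce t c := by
              simpa [HY] using u
            rcases hor with ⟨k0, a1, a2⟩ | ⟨k1, a1, a2⟩ | ⟨k2, a1, a2⟩ | ⟨k3, a1, a2⟩
            · have := high0 (G := G) (c := c) (B := G.bot t xx c r) ht ht60 f2 hW hL hR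
                (h ▸ hsp) hδ u1 hw (x := z.re - c) (by rw [a1]; ring) x0 x1
              rw [a2, e4]
              simp only [HY]
              norm_num
              linarith only [this]
            · omega
            · omega
            · omega

end Pool.Agent.Helper2_Pak.H66
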