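import Pool.Agent.Helper2_Pak.StmtsP
import Pool.Agent.Helper15_Pack.Poly
import Pool.Agent.Helper66_Pak.K7

/-!
# PAK1 module P1: the polygon of the shape
-/

namespace Pool.Agent.Helper2_Pak.H66

open Pool.Agent.Helper2_Pack (Motion Polygon pt Crosses region IsSimple chainVal StrictX)
open Pool.Agent.Helper15_Pack (path mem_ends cnt_ends)

section Real

variable {t : ℝ}

theorem pit_zero {a b e : ℝ} (h1 : 0 ≤ a + b / 128) (h2 : 0 ≤ a - b / 128) (h : 1 / 64 ≤ |e|) :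
    pit a b e = 0 := by
  unfold pit
  apply max_eq_left
  rcases le_abs.1 h with h | h
  · refine (min_le_right _ _).trans ((min_le_left _ _).trans ?_)
    exact mul_nonpos_of_nonneg_of_nonpos h1 (by linarith only [h])
  · refine (min_le_right _ _).trans ((min_le_right _ _).trans ?_)
    exact mul_nonpos_of_nonneg_of_nonpos h2 (by linarith only [h])

theorem pit_le {a b e M : ℝ} (h1 : 0 ≤ a + b / 128) (h2 : 0 ≤ a - b / 128)
    (h3 : 2 * (a + b / 128) ≤ M) (h4 : 2 * (a - b / 128) ≤ M) : pit a b e ≤ M := by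
  unfold pit
  refine max_le (by linarith only [h1, h3]) ?_
  rcases le_total 0 e with h | h
  · refine (min_le_right _ _).trans ((min_le_left _ _).trans ?_)
    nlinarith only [h3, h1, h]
  · refine (min_le_right _ _).trans ((min_le_right _ _).trans ?_)
    nlinarith

theorem slit_zero (ht : 0 < t) {d e : ℝ} (hd : 0 ≤ d) (h : 2 * t ^ 7 ≤ |e|) : slit t d e = 0 := by
  unfold slit
  apply max_eq_left
  apply mul_nonpos_of_nonneg_of_nonpos hd
  have : 1 ≤ |e| / (2 * t ^ 7) := by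
    rw [le_div_iff₀ (by positivity)]
    linarith
  linarith

theorem slit_le (ht : 0 < t) {d e : ℝ} (hd : 0 ≤ d) : slit t d e ≤ d := by
  unfold slit
  refine max_le hd ?_
  have : 0 ≤ |e| / (2 * t ^ 7) := by positivity
  nlinarith only [hd, this]

theorem dent_zero (ht : 0 < t) {e : ℝ} (h : 1 / 64 ≤ |e|) : dent t e = 0 := by
  unfold dent
  apply max_eq_left
  apply mul_nonpos_of_nonneg_of_nonpos (by positivity)
  linarith

theorem dent_le (ht : 0 < t) (e : ℝ) : dent t e ≤ 2 * t ^ 3 := by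
  unfold dent
  have : 0 < t ^ 3 := by positivity
  refine max_le (by positivity) ?_
  have := mul_nonneg this.le (abs_nonneg e)
  nlinarith

theorem pits (ht : 0 < t) (ht60 : t ≤ 1 / 2 ^ 60) :
    (0 ≤ (t ^ 3 - t ^ 4) + (-t ^ 4) / 128 ∧ 0 ≤ (t ^ 3 - t ^ 4) - (-t ^ 4) / 128 ∧
      2 * ((t ^ 3 - t ^ 4) + (-t ^ 4) / 128) ≤ 4 * t ^ 3 ∧
      2 * ((t ^ 3 - t ^ 4) - (-t ^ 4) / 128) ≤ 4 * t ^ 3) ∧
    (0 ≤ t ^ 3 / 2 + (-t ^ 3) / 128 ∧ 0 ≤ t ^ 3 / 2 - (-t ^ 3) / 128 ∧
      2 * (t ^ 3 / 2 + (-t ^ 3) / 128) ≤ 4 * t ^ 3 ∧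
      2 * (t ^ 3 / 2 - (-t ^ 3) / 128) ≤ 4 * t ^ 3) ∧
    (0 ≤ t ^ 3 / 2 + t ^ 3 / 128 ∧ 0 ≤ t ^ 3 / 2 - t ^ 3 / 128 ∧
      2 * (t ^ 3 / 2 + t ^ 3 / 128) ≤ 4 * t ^ 3 ∧
      2 * (t ^ 3 / 2 - t ^ 3 / 128) ≤ 4 * t ^ 3) := by
  obtain ⟨-, -, -, q4, -, -, -, p3, p4, -⟩ := pows ht ht60
  refine ⟨⟨?_, ?_, ?_, ?_⟩, ⟨?_, ?_, ?_, ?_⟩, ⟨?_, ?_, ?_, ?_⟩⟩ <;> linarith only [q4, p4]

/-- the left side near the corners -/
theorem lf_far (ht : 0 < t) (ht60 : t ≤ 1 / 2 ^ 60) {y : ℝ} (hy : 3 / 8 ≤ |y|) :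
    lf t y = -1 / 2 + chamf t (hh t) y := by
  obtain ⟨q1, -, q3, -, q7, -, -, p3, -⟩ := pows ht ht60
  obtain ⟨⟨a1, a2, -, -⟩, -, -⟩ := pits ht ht60
  unfold lf
  have e : ∀ s : ℝ, |s| ≤ 1 / 4 → 1 / 8 ≤ |y - s| := by
    intro s hs
    have := abs_sub_abs_le_abs_sub y s
    linarith only [hy, hs, this]
  have e1 := e (-1 / 4) (by norm_num)
  have e2 := e (1 / 4) (by norm_num)
  have e3 := e (-1 / 16) (by norm_num [abs_le])
  have e4 := e (1 / 16) (by norm_num [abs_le])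
  rw [show y - -1 / 4 = y + 1 / 4 by ring] at e1
  rw [show y - -1 / 16 = y + 1 / 16 by ring] at e3
  rw [pit_zero a1 a2 (by linarith only [e1]), pit_zero a1 a2 (by linarith only [e2]),
    slit_zero ht (by linarith only [ht60, q3]) (by linarith), slit_zero ht (by linarith only [ht60, q3]) (by linarith only [ht60, q3, q7, e4])]
  ring

/-- the right side near the corners -/
theorem rt_far (ht : 0 < t) (ht60 : t ≤ 1 / 2 ^ 60) {y : ℝ} (hy : 3 / 8 ≤ |y|) :
    rt t y = 1 / 2 - chamf t (hh t) y := by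
  obtain ⟨-, ⟨a1, a2, -, -⟩, ⟨b1, b2, -, -⟩⟩ := pits ht ht60
  unfold rt
  have e : ∀ s : ℝ, |s| ≤ 5 / 16 → 1 / 16 ≤ |y - s| := by
    intro s hs
    have := abs_sub_abs_le_abs_sub y s
    linarith only [hy, hs, this]
  have e1 := e (-5 / 16) (by norm_num [abs_le])
  have e2 := e (-3 / 16) (by norm_num [abs_le])
  have e3 := e (3 / 16) (by norm_num [abs_le])
  have e4 := e (5 / 16) (by norm_num [abs_le])
  rw [show y - -5 / 16 = y + 5 / 16 by ring] at e1
  rw [show y - -3 / 16 = y + 3 / 16 by ring] at e2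
  rw [pit_zero a1 a2 (by linarith only [e1]), pit_zero b1 b2 (by linarith only [e2]), pit_zero b1 b2 (by linarith only [e3]),
    pit_zero a1 a2 (by linarith only [e4])]
  ring

theorem chamf_near (ht : 0 < t) {y : ℝ} (hy : |y| ≤ hh t) : chamf t (hh t) y ≤ t := by
  unfold chamf
  exact max_le ht.le (by linarith)

theorem le_rt (ht : 0 < t) (ht60 : t ≤ 1 / 2 ^ 60) {y : ℝ} (hy : |y| ≤ hh t) :
    1 / 2 - t - 16 * t ^ 3 ≤ rt t y := by
  obtain ⟨-, ⟨a1, a2, a3, a4⟩, ⟨b1, b2, b3, b4⟩⟩ := pits ht ht60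
  unfold rt
  linarith only [pit_le (e := y + 5 / 16) a1 a2 a3 a4, pit_le (e := y + 3 / 16) b1 b2 b3 b4,
    pit_le (e := y - 3 / 16) b1 b2 b3 b4, pit_le (e := y - 5 / 16) a1 a2 a3 a4,
    chamf_near ht hy]

/-- the left side is on the left of the right side -/
theorem lf_lt_rt (ht : 0 < t) (ht60 : t ≤ 1 / 2 ^ 60) {y : ℝ} (hy : |y| ≤ hh t) :
    lf t y < rt t y := by
  obtain ⟨q1, q2, q3, -, q7, -, p2, p3, -⟩ := pows ht ht60
  obtain ⟨⟨a1, a2, a3, a4⟩, ⟨b1, b2, -, -⟩, ⟨c1, c2, -, -⟩⟩ := pits ht ht60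
  have hr := le_rt ht ht60 hy
  rcases le_or_gt (3 / 8) |y| with h | h
  · rw [lf_far ht ht60 h]
    linarith only [ht60, q3, hr, chamf_near ht hy]
  · have hc : chamf t (hh t) y = 0 := by
      unfold chamf hh
      apply max_eq_left
      linarith only [ht60, p2, h]
    rw [abs_lt] at h
    have hs : ∀ s d : ℝ, (s = 1 / 16 ∨ s = -(1 / 16)) → |y + s| < 2 * t ^ 7 → lf t y = -1 / 2 +
        slit t (1 - t ^ 3 / 4) (y + 1 / 16) + slit t (1 - 3 * t ^ 3 / 4) (y - 1 / 16) ∧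
        rt t y = 1 / 2 := by
      intro s d hs hys
      rw [abs_lt] at hys
      have hy1 : |y| ≤ 1 / 8 := by
        rw [abs_le]
        rcases hs with rfl | rfl <;> constructor <;> linarith only [ht60, q3, q7, hys]
      have e : ∀ s : ℝ, 3 / 16 ≤ |s| → 1 / 16 ≤ |y + s| := by
        intro s hs
        have := abs_sub_abs_le_abs_sub s (-y)
        rw [abs_neg, sub_neg_eq_add, add_comm s y] at this
        linarith only [hy1, hs, this]
      have e1 := e (1 / 4) (by norm_num [abs_of_pos])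
      have e2 := e (-1 / 4) (by norm_num)
      have e3 := e (5 / 16) (by norm_num [abs_of_pos])
      have e4 := e (3 / 16) (by norm_num [abs_of_pos])
      have e5 := e (-(3 / 16)) (by rw [abs_neg]; norm_num [abs_of_pos])
      have e6 := e (-(5 / 16)) (by rw [abs_neg]; norm_num [abs_of_pos])
      rw [← sub_eq_add_neg] at e5 e6
      rw [show y + -1 / 4 = y - 1 / 4 by ring] at e2
      unfold lf rt
      rw [hc, pit_zero a1 a2 (by linarith only [e1]), pit_zero a1 a2 (by linarith only [e2]),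
        pit_zero b1 b2 (by linarith only [e3]), pit_zero c1 c2 (by linarith only [e4]),
        pit_zero c1 c2 (by linarith only [e5]), pit_zero b1 b2 (by linarith only [e6])]
      constructor <;> ring
    by_cases h1 : |y + 1 / 16| < 2 * t ^ 7
    · obtain ⟨e1, e2⟩ := hs (1 / 16) 0 (Or.inl rfl) h1
      rw [abs_lt] at h1
      rw [e1, e2, slit_zero (e := y - 1 / 16) ht (by linarith only [ht60, q3]) (by
        rw [abs_of_neg] <;> linarith only [ht60, q3, q7, h1])]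
      have := slit_le (t := t) (d := 1 - t ^ 3 / 4) (e := y + 1 / 16) ht (by linarith only [ht60, q3])
      linarith only [q7, h1, this]
    by_cases h2 : |y - 1 / 16| < 2 * t ^ 7
    · obtain ⟨e1, e2⟩ := hs (-(1 / 16)) 0 (Or.inr rfl) (by rwa [← sub_eq_add_neg])
      rw [abs_lt] at h2
      rw [e1, e2, slit_zero (e := y + 1 / 16) ht (by linarith only [ht60, q3]) (by
        rw [abs_of_pos] <;> linarith only [ht60, q3, q7, h2])]
      have := slit_le (t := t) (d := 1 - 3 * t ^ 3 / 4) (e := y - 1 / 16) ht (by linarith only [ht60, q3])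
      linarith only [q7, h2, this]
    · rw [not_lt] at h1 h2
      refine lt_of_lt_of_le ?_ hr
      unfold lf
      rw [slit_zero ht (by linarith only [ht60, q3]) h1, slit_zero ht (by linarith only [ht60, q3]) h2, hc]
      linarith only [ht60, q3, pit_le (e := y + 1 / 4) a1 a2 a3 a4, pit_le (e := y - 1 / 4) a1 a2 a3 a4]

theorem lf_ge (t y : ℝ) : -1 / 2 + chamf t (hh t) y ≤ lf t y := by
  unfold lf
  linarith only [pit_nonneg (t ^ 3 - t ^ 4) (-t ^ 4) (y + 1 / 4),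
        pit_nonneg (t ^ 3 - t ^ 4) (-t ^ 4) (y - 1 / 4),
        slit_nonneg t (1 - t ^ 3 / 4) (y + 1 / 16),
        slit_nonneg t (1 - 3 * t ^ 3 / 4) (y - 1 / 16)]

theorem rt_le (t y : ℝ) : rt t y ≤ 1 / 2 - chamf t (hh t) y := by
  unfold rt
  linarith [pit_nonneg (t ^ 3 / 2) (-t ^ 3) (y + 5 / 16),
        pit_nonneg (t ^ 3 / 2) (t ^ 3) (y + 3 / 16),
        pit_nonneg (t ^ 3 / 2) (t ^ 3) (y - 3 / 16),
        pit_nonneg (t ^ 3 / 2) (-t ^ 3) (y - 5 / 16)]

/-- the bottom side: bounds -/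
theorem lo_bd (ht : 0 < t) (ht60 : t ≤ 1 / 2 ^ 60) {x : ℝ} (hx : |x| ≤ 1 / 2 - t) :
    -hh t ≤ lo t x ∧ lo t x ≤ -hh t + 4 * t ^ 3 ∧ (17 / 64 ≤ |x| → lo t x = -hh t) := by
  have hc : chamf t (1 / 2) x = 0 := by
    unfold chamf
    apply max_eq_left
    linarith
  unfold lo
  rw [hc]
  have d1 := dent_nonneg t (x + 1 / 4)
  have d2 := dent_nonneg t (x - 1 / 4)
  have d3 := dent_le ht (x + 1 / 4)
  have d4 := dent_le ht (x - 1 / 4)
  refine ⟨by linarith, by linarith, fun h => ?_⟩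
  rcases le_abs.1 h with h | h
  · rw [dent_zero ht (by rw [abs_of_nonneg] <;> linarith only [h]),
      dent_zero ht (by rw [abs_of_nonneg] <;> linarith only [h])]
    ring
  · rw [dent_zero ht (by rw [abs_of_nonpos] <;> linarith only [h]),
      dent_zero ht (by rw [abs_of_nonpos] <;> linarith only [h])]
    ring

/-- the bottom side near the ends -/
theorem lo_far (ht : 0 < t) {x : ℝ} (hx : 17 / 64 ≤ |x|) :
    lo t x = -hh t + chamf t (1 / 2) x := by
  unfold lo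
  rcases le_abs.1 hx with h | h
  · rw [dent_zero ht (by rw [abs_of_nonneg] <;> linarith),
      dent_zero ht (by rw [abs_of_nonneg] <;> linarith only [h])]
    ring
  · rw [dent_zero ht (by rw [abs_of_nonpos] <;> linarith),
      dent_zero ht (by rw [abs_of_nonpos] <;> linarith)]
    ring

/-- the top side: bounds -/
theorem hi_bd (ht : 0 < t) (ht60 : t ≤ 1 / 2 ^ 60) {x : ℝ} (hx : |x| ≤ 1 / 2 - t) :
    hh t ≤ hi t x ∧ hi t x ≤ hh t + 2 * t ^ 3 ∧ (17 / 64 ≤ |x| → hi t x = hh t) := by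
  obtain ⟨q1, -, q3, -, -, -, -, p3, -⟩ := pows ht ht60
  have hc : chamf t (1 / 2) x = 0 := by
    unfold chamf
    apply max_eq_left
    linarith
  unfold hi
  rw [hc]
  have d1 := bump_nonneg t (x + 1 / 4)
  have d2 := bump_nonneg t (x - 1 / 4)
  have d3 := bump_le ht (x + 1 / 4)
  have d4 := bump_le ht (x - 1 / 4)
  refine ⟨by linarith only [d1, d2], by linarith only [d3, d4], fun h => ?_⟩
  rcases le_abs.1 h with h | h
  · rw [bump_zero (by rw [abs_of_nonneg] <;> linarith only [ht60, q3, h]),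
      bump_zero (by rw [abs_of_nonneg] <;> linarith only [ht60, q3, h])]
    ring
  · rw [bump_zero (by rw [abs_of_nonpos] <;> linarith only [ht60, q3, h]),
      bump_zero (by rw [abs_of_nonpos] <;> linarith only [ht60, q3, h])]
    ring

theorem hi_far (ht : 0 < t) (ht60 : t ≤ 1 / 2 ^ 60) {x : ℝ} (hx : 17 / 64 ≤ |x|) :
    hi t x = hh t - chamf t (1 / 2) x := by
  obtain ⟨q1, -, q3, -, -, -, -, p3, -⟩ := pows ht ht60
  unfold hi
  rcases le_abs.1 hx with h | h
  · rw [bump_zero (by rw [abs_of_nonneg] <;> linarith only [ht60, q3, h]),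
      bump_zero (by rw [abs_of_nonneg] <;> linarith only [ht60, q3, h])]
    ring
  · rw [bump_zero (by rw [abs_of_nonpos] <;> linarith only [ht60, q3, h]),
      bump_zero (by rw [abs_of_nonpos] <;> linarith only [ht60, q3, h])]
    ring

theorem le_chamf (t w e : ℝ) : |e| - (w - t) ≤ chamf t w e := le_max_right _ _

theorem mem_bot (ht : 0 < t) (ht60 : t ≤ 1 / 2 ^ 60) {z : ℂ} (h1 : |z.re| ≤ 1 / 2 - t)
    (h2 : z.im = lo t z.re) : z ∈ shape t := by
  obtain ⟨q1, q2, q3, -, -, -, p2, p3, -⟩ := pows ht ht60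
  obtain ⟨b1, b2, -⟩ := lo_bd ht ht60 h1
  obtain ⟨c1, -, -⟩ := hi_bd ht ht60 h1
  have hhh : hh t = 1 / 2 + t ^ 2 / 2 := by unfold hh; ring
  have hy : |z.im| ≤ hh t := by
    rw [abs_le]
    constructor <;> linarith only [h2, b1, ht60, q3, p2, b2, hhh]
  have hy2 : 3 / 8 ≤ |z.im| := by
    rw [abs_of_neg] <;> linarith
  have hc := chamf_near ht hy
  rw [abs_le] at h1
  refine ⟨h2.ge, by linarith only [ht60, h2, q3, p2, b2, c1, hhh], ?_, ?_⟩
  · rw [lf_far ht ht60 hy2]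
    linarith
  · rw [rt_far ht ht60 hy2]
    linarith only [h1, hc]

theorem mem_top (ht : 0 < t) (ht60 : t ≤ 1 / 2 ^ 60) {z : ℂ} (h1 : |z.re| ≤ 1 / 2 - t)
    (h0 : hh t ≤ z.im) (h2 : z.im ≤ hi t z.re) : z ∈ shape t := by
  have h0' := h0
  obtain ⟨q1, q2, q3, -, -, -, p2, p3, -⟩ := pows ht ht60
  obtain ⟨b1, b2, -⟩ := lo_bd ht ht60 h1
  obtain ⟨c1, c2, c3⟩ := hi_bd ht ht60 h1
  have hhh : hh t = 1 / 2 + t ^ 2 / 2 := by unfold hh; ring
  have hy2 : 3 / 8 ≤ |z.im| := by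
    rw [abs_of_pos] <;> linarith only [h0, p2, hhh]
  have hc : chamf t (hh t) z.im ≤ t + (z.im - hh t) := by
    unfold chamf
    rw [abs_of_pos (by linarith)]
    exact max_le (by linarith only [h0, q2, p2]) (by linarith)
  have hkey : chamf t (hh t) z.im ≤ 1 / 2 - |z.re| := by
    rcases le_or_gt (17 / 64) |z.re| with h | h
    · have := c3 h
      have : z.im = hh t := by linarith only [h0, h2, this]
      rw [this] at hc ⊢
      linarith only [h1, hc]
    · linarith only [ht60, h2, q3, c2, hc, h]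
  have a1 := neg_abs_le z.re
  have a2 := le_abs_self z.re
  refine ⟨by linarith only [ht60, h0, q3, p2, b2, hhh], h2, ?_, ?_⟩
  · rw [lf_far ht ht60 hy2]
    linarith only [hkey, a1]
  · rw [rt_far ht ht60 hy2]
    linarith only [hkey, a2]

/-- points between the left and the right side -/
theorem mem_mid (ht : 0 < t) (ht60 : t ≤ 1 / 2 ^ 60) {z : ℂ} (h0 : -hh t ≤ z.im)
    (h1 : z.im ≤ hh t) (h2 : lf t z.im ≤ z.re) (h3 : z.re ≤ rt t z.im)
    (h4 : |z.re| ≤ 1 / 2 - t → lo t z.re ≤ z.im) : z ∈ shape t := by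
  have a1 := neg_abs_le z.re
  have a2 := le_abs_self z.re
  have a3 := neg_abs_le z.im
  have a4 := le_abs_self z.im
  rcases le_or_gt |z.re| (1 / 2 - t) with h | h
  · refine ⟨h4 h, ?_, h2, h3⟩
    linarith [(hi_bd ht ht60 h).1]
  · obtain ⟨q1, -⟩ := pows ht ht60
    have h5 : 17 / 64 ≤ |z.re| := by linarith
    have h6 := lf_ge t z.im
    have h7 := rt_le t z.im
    have h8 := le_chamf t (hh t) z.im
    have h9 : chamf t (1 / 2) z.re ≤ hh t - |z.im| := by
      unfold chamf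
      refine max_le ?_ ?_
      · have : |z.im| ≤ hh t := abs_le.2 ⟨h0, h1⟩
        linarith only [this]
      · rcases le_total 0 z.re with h | h
        · rw [abs_of_nonneg h]
          linarith only [h3, h7, h8]
        · rw [abs_of_nonpos h]
          linarith only [h2, h6, h8]
    refine ⟨?_, ?_, h2, h3⟩
    · rw [lo_far ht h5]
      linarith only [a3, h9]
    · rw [hi_far ht ht60 h5]
      linarith only [a4, h9]

/-- the converse -/
theorem of_mem (ht : 0 < t) (ht60 : t ≤ 1 / 2 ^ 60) {z : ℂ} (hz : z ∈ shape t) :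
    -hh t ≤ z.im ∧ (z.im ≤ hh t ∨ |z.re| ≤ 1 / 2 - t) := by
  obtain ⟨h1, h2, h3, h4⟩ := hz
  rcases le_or_gt |z.re| (1 / 2 - t) with h | h
  · exact ⟨(lo_bd ht ht60 h).1.trans h1, Or.inr h⟩
  · obtain ⟨q1, -⟩ := pows ht ht60
    have h5 : 17 / 64 ≤ |z.re| := by linarith only [ht60, h]
    rw [lo_far ht h5] at h1
    rw [hi_far ht ht60 h5] at h2
    have := chamf_nonneg t (1 / 2) z.re
    exact ⟨by linarith, Or.inl (by linarith)⟩

/-- near the bottom the left and the right side are outside -/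
theorem near_bot (ht : 0 < t) (ht60 : t ≤ 1 / 2 ^ 60) {y : ℝ} (h0 : -hh t ≤ y)
    (h1 : y ≤ -hh t + 4 * t ^ 3) : lf t y = -1 / 2 + t - (y + hh t) ∧
      rt t y = 1 / 2 - t + (y + hh t) := by
  obtain ⟨q1, q2, q3, -, -, -, p2, p3, -⟩ := pows ht ht60
  have hhh : hh t = 1 / 2 + t ^ 2 / 2 := by unfold hh; ring
  have hy : |y| = -y := abs_of_neg (by linarith)
  have hc : chamf t (hh t) y = t - (y + hh t) := by
    unfold chamf
    rw [hy, max_eq_right (by linarith only [h1, q2, q3, p2])]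
    ring
  rw [lf_far ht ht60 (by rw [hy]; linarith only [ht60, h1, q3, p2, hhh]), rt_far ht ht60 (by rw [hy]; linarith only [ht60, h1, q3, p2, hhh]), hc]
  constructor <;> ring

theorem at_top (ht : 0 < t) (ht60 : t ≤ 1 / 2 ^ 60) : lf t (hh t) = -1 / 2 + t ∧
      rt t (hh t) = 1 / 2 - t := by
  obtain ⟨q1, q2, q3, -, -, -, p2, p3, -⟩ := pows ht ht60
  have hhh : hh t = 1 / 2 + t ^ 2 / 2 := by unfold hh; ring
  have hy : |hh t| = hh t := abs_of_pos (by linarith only [p2, hhh])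
  have hc : chamf t (hh t) (hh t) = t := by
    unfold chamf
    rw [hy, max_eq_right (by linarith only [q2, p2])]
    ring
  rw [lf_far ht ht60 (by rw [hy]; linarith only [p2, hhh]), rt_far ht ht60 (by rw [hy]; linarith only [p2, hhh]), hc]
  constructor <;> ring

open Classical in
/-- the parity of the crossings -/
theorem par_shape (ht : 0 < t) (ht60 : t ≤ 1 / 2 ^ 60) {z : ℂ}
    (hb : ¬ (-1 / 2 + t ≤ z.re ∧ z.re ≤ 1 / 2 - t ∧ z.im = lo t z.re))
    (hT : ¬ (-1 / 2 + t ≤ z.re ∧ z.re ≤ 1 / 2 - t ∧ z.im = hi t z.re))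
    (hl : ¬ (-hh t ≤ z.im ∧ z.im ≤ hh t ∧ z.re = lf t z.im))
    (hr : ¬ (-hh t ≤ z.im ∧ z.im ≤ hh t ∧ z.re = rt t z.im)) :
    z ∈ shape t ↔ ((if -1 / 2 + t ≤ z.re ∧ z.re < 1 / 2 - t ∧ z.im < lo t z.re then 1 else 0) +
      (if -hh t ≤ z.im ∧ z.im ≤ hh t ∧ ((z.re < lf t z.im ∧ -1 / 2 + t ≤ z.re) ∨
        (lf t z.im < z.re ∧ z.re < -1 / 2 + t)) then 1 else 0) +
      (if -1 / 2 + t ≤ z.re ∧ z.re < 1 / 2 - t ∧ z.im < hi t z.re then 1 else 0) +
      (if -hh t ≤ z.im ∧ z.im ≤ hh t ∧ ((z.re < rt t z.im ∧ 1 / 2 - t ≤ z.re) ∨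
        (rt t z.im < z.re ∧ z.re < 1 / 2 - t)) then 1 else 0)) % 2 = 1 := by
  obtain ⟨q1, q2, q3, -, -, -, p2, p3, -⟩ := pows ht ht60
  have hhh : hh t = 1 / 2 + t ^ 2 / 2 := by unfold hh; ring
  rcases lt_or_ge z.re (-1 / 2 + t) with hx | hx
  · -- on the left
    have n1 : ¬ (-1 / 2 + t ≤ z.re ∧ z.re < 1 / 2 - t ∧ z.im < lo t z.re) := fun h => by
      linarith [h.1]
    have n2 : ¬ (-1 / 2 + t ≤ z.re ∧ z.re < 1 / 2 - t ∧ z.im < hi t z.re) := fun h => by
      linarith only [hx, h.1]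
    have n3 : ¬ (-hh t ≤ z.im ∧ z.im ≤ hh t ∧ ((z.re < rt t z.im ∧ 1 / 2 - t ≤ z.re) ∨
        (rt t z.im < z.re ∧ z.re < 1 / 2 - t))) := by
      rintro ⟨h1, h2, h3⟩
      have := le_rt ht ht60 (abs_le.2 ⟨h1, h2⟩)
      rcases h3 with h3 | h3 <;> linarith only [ht60, hx, q3, this, h3.1, h3.2]
    rw [if_neg n1, if_neg n2, if_neg n3]
    have hiff : z ∈ shape t ↔ (-hh t ≤ z.im ∧ z.im ≤ hh t ∧
        ((z.re < lf t z.im ∧ -1 / 2 + t ≤ z.re) ∨ (lf t z.im < z.re ∧ z.re < -1 / 2 + t))) := by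
      constructor
      · intro hz
        obtain ⟨h1, h2⟩ := of_mem ht ht60 hz
        have h3 : z.im ≤ hh t := by
          rcases h2 with h2 | h2
          · exact h2
          · rw [abs_le] at h2
            linarith only [hx, h2.1]
        refine ⟨h1, h3, Or.inr ⟨lt_of_le_of_ne hz.2.2.1 fun h => hl ⟨h1, h3, h.symm⟩, hx⟩⟩
      · rintro ⟨h1, h2, h3⟩
        rcases h3 with h3 | h3
        · linarith only [hx, h3.2]
        · have := le_rt ht ht60 (abs_le.2 ⟨h1, h2⟩)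
          refine mem_mid ht ht60 h1 h2 h3.1.le (by linarith only [ht60, q3, hx, this]) fun h => ?_
          rw [abs_le] at h
          linarith only [hx, h.1]
    rw [hiff]
    split_ifs with h
    · exact ⟨fun _ => by norm_num, fun _ => h⟩
    · exact ⟨fun h' => absurd h' h, fun h' => by norm_num at h'⟩
  rcases lt_or_ge z.re (1 / 2 - t) with hx' | hx'
  · -- in the middle
    have hab : |z.re| ≤ 1 / 2 - t := abs_le.2 ⟨by linarith only [hx], hx'.le⟩
    obtain ⟨l1, l2, -⟩ := lo_bd ht ht60 hab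
    obtain ⟨u1, u2, -⟩ := hi_bd ht ht60 hab
    rcases lt_or_ge z.im (-hh t) with hy | hy
    · have n1 : ¬ (-hh t ≤ z.im ∧ z.im ≤ hh t ∧ ((z.re < lf t z.im ∧ -1 / 2 + t ≤ z.re) ∨
        (lf t z.im < z.re ∧ z.re < -1 / 2 + t))) := fun h => by linarith only [hy, h.1]
      have n2 : ¬ (-hh t ≤ z.im ∧ z.im ≤ hh t ∧ ((z.re < rt t z.im ∧ 1 / 2 - t ≤ z.re) ∨
        (rt t z.im < z.re ∧ z.re < 1 / 2 - t))) := fun h => by linarith only [hy, h.1]
      rw [if_neg n1, if_neg n2, if_pos ⟨hx, hx', by linarith only [l1, hy]⟩, if_pos ⟨hx, hx', by linarith only [p2, hhh, u1, hy]⟩]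
      constructor
      · intro hz
        linarith only [hy, (of_mem ht ht60 hz).1]
      · intro h
        norm_num at h
    rcases lt_or_ge (hh t) z.im with hy' | hy'
    · have n1 : ¬ (-hh t ≤ z.im ∧ z.im ≤ hh t ∧ ((z.re < lf t z.im ∧ -1 / 2 + t ≤ z.re) ∨
        (lf t z.im < z.re ∧ z.re < -1 / 2 + t))) := fun h => by linarith only [hy', h.2.1]
      have n2 : ¬ (-hh t ≤ z.im ∧ z.im ≤ hh t ∧ ((z.re < rt t z.im ∧ 1 / 2 - t ≤ z.re) ∨
        (rt t z.im < z.re ∧ z.re < 1 / 2 - t))) := fun h => by linarith only [hy', h.2.1]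
      have n3 : ¬ (-1 / 2 + t ≤ z.re ∧ z.re < 1 / 2 - t ∧ z.im < lo t z.re) := fun h => by
        linarith only [q3, p2, hhh, l2, hy', h, h.2.2]
      rw [if_neg n1, if_neg n2, if_neg n3]
      have hiff : z ∈ shape t ↔ (-1 / 2 + t ≤ z.re ∧ z.re < 1 / 2 - t ∧ z.im < hi t z.re) := by
        constructor
        · intro hz
          exact ⟨hx, hx', lt_of_le_of_ne hz.2.1 fun h => hT ⟨hx, hx'.le, h⟩⟩
        · intro h
          exact mem_top ht ht60 hab hy'.le h.2.2.le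
      rw [hiff]
      split_ifs with h
      · exact ⟨fun _ => by norm_num, fun _ => h⟩
      · exact ⟨fun h' => absurd h' h, fun h' => by norm_num at h'⟩
    have hyy := abs_le.2 ⟨hy, hy'⟩
    have pT : -1 / 2 + t ≤ z.re ∧ z.re < 1 / 2 - t ∧ z.im < hi t z.re :=
      ⟨hx, hx', lt_of_le_of_ne (by linarith only [u1, hy']) fun h => hT ⟨hx, hx'.le, h⟩⟩
    rw [if_pos pT]
    have hlr := lf_lt_rt ht ht60 hyy
    by_cases hB : z.im < lo t z.re
    · obtain ⟨e1, e2⟩ := near_bot ht ht60 hy (by linarith only [l2, hB])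
      have n1 : ¬ (-hh t ≤ z.im ∧ z.im ≤ hh t ∧ ((z.re < lf t z.im ∧ -1 / 2 + t ≤ z.re) ∨
        (lf t z.im < z.re ∧ z.re < -1 / 2 + t))) := by
        rintro ⟨-, -, h | h⟩ <;> linarith only [hy, e1, hx, h.1, h.2]
      have n2 : ¬ (-hh t ≤ z.im ∧ z.im ≤ hh t ∧ ((z.re < rt t z.im ∧ 1 / 2 - t ≤ z.re) ∨
        (rt t z.im < z.re ∧ z.re < 1 / 2 - t))) := by
        rintro ⟨-, -, h | h⟩ <;> linarith only [hx', hy, e2, h.1, h.2]
      rw [if_neg n1, if_neg n2, if_pos ⟨hx, hx', hB⟩]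
      constructor
      · intro hz
        linarith only [hB, hz.1]
      · intro h
        norm_num at h
    · have n1 : ¬ (-1 / 2 + t ≤ z.re ∧ z.re < 1 / 2 - t ∧ z.im < lo t z.re) := fun h => hB h.2.2
      rw [if_neg n1]
      rw [not_lt] at hB
      by_cases h1 : z.re < lf t z.im
      · have n2 : ¬ (-hh t ≤ z.im ∧ z.im ≤ hh t ∧ ((z.re < rt t z.im ∧ 1 / 2 - t ≤ z.re) ∨
            (rt t z.im < z.re ∧ z.re < 1 / 2 - t))) := by
          rintro ⟨-, -, h | h⟩ <;> linarith only [hx', hlr, h1, h.1, h.2]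
        rw [if_neg n2, if_pos ⟨hy, hy', Or.inl ⟨h1, hx⟩⟩]
        constructor
        · intro hz
          linarith only [h1, hz.2.2.1]
        · intro h
          norm_num at h
      · have n2 : ¬ (-hh t ≤ z.im ∧ z.im ≤ hh t ∧ ((z.re < lf t z.im ∧ -1 / 2 + t ≤ z.re) ∨
            (lf t z.im < z.re ∧ z.re < -1 / 2 + t))) := by
          rintro ⟨-, -, h | h⟩
          · exact h1 h.1
          · linarith [h.2]
        rw [if_neg n2]
        rw [not_lt] at h1
        by_cases h2 : rt t z.im < z.re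
        · rw [if_pos ⟨hy, hy', Or.inr ⟨h2, hx'⟩⟩]
          constructor
          · intro hz
            linarith only [h2, hz.2.2.2]
          · intro h
            norm_num at h
        · have n3 : ¬ (-hh t ≤ z.im ∧ z.im ≤ hh t ∧ ((z.re < rt t z.im ∧ 1 / 2 - t ≤ z.re) ∨
            (rt t z.im < z.re ∧ z.re < 1 / 2 - t))) := by
            rintro ⟨-, -, h | h⟩
            · linarith only [hx', h.2]
            · exact h2 h.1
          rw [if_neg n3]
          rw [not_lt] at h2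
          constructor
          · intro _
            norm_num
          · intro _
            exact mem_mid ht ht60 hy hy' h1 h2 fun _ => hB
  · -- on the right
    have n1 : ¬ (-1 / 2 + t ≤ z.re ∧ z.re < 1 / 2 - t ∧ z.im < lo t z.re) := fun h => by
      linarith only [hx', h.2.1]
    have n2 : ¬ (-1 / 2 + t ≤ z.re ∧ z.re < 1 / 2 - t ∧ z.im < hi t z.re) := fun h => by
      linarith only [hx', h.2.1]
    rw [if_neg n1, if_neg n2]
    by_cases hyy : -hh t ≤ z.im ∧ z.im ≤ hh t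
    · obtain ⟨hy, hy'⟩ := hyy
      have hlr := lf_lt_rt ht ht60 (abs_le.2 ⟨hy, hy'⟩)
      by_cases h1 : z.re < lf t z.im
      · rw [if_pos ⟨hy, hy', Or.inl ⟨h1, hx⟩⟩, if_pos ⟨hy, hy', Or.inl ⟨by linarith only [hlr, h1], hx'⟩⟩]
        constructor
        · intro hz
          linarith only [h1, hz.2.2.1]
        · intro h
          norm_num at h
      · have n3 : ¬ (-hh t ≤ z.im ∧ z.im ≤ hh t ∧ ((z.re < lf t z.im ∧ -1 / 2 + t ≤ z.re) ∨
            (lf t z.im < z.re ∧ z.re < -1 / 2 + t))) := by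
          rintro ⟨-, -, h | h⟩
          · exact h1 h.1
          · linarith only [ht60, hx', h.2]
        rw [if_neg n3]
        rw [not_lt] at h1
        by_cases h2 : z.re < rt t z.im
        · rw [if_pos ⟨hy, hy', Or.inl ⟨h2, hx'⟩⟩]
          constructor
          · intro _
            norm_num
          · intro _
            refine mem_mid ht ht60 hy hy' h1 h2.le fun h => ?_
            have h3 : z.re = 1 / 2 - t := by
              rw [abs_le] at h
              linarith only [hx', h.2]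
            have := (lo_bd ht ht60 h).2.2 (by rw [h3, abs_of_pos] <;> linarith only [ht60])
            linarith only [hy, this]
        · have n4 : ¬ (-hh t ≤ z.im ∧ z.im ≤ hh t ∧ ((z.re < rt t z.im ∧ 1 / 2 - t ≤ z.re) ∨
            (rt t z.im < z.re ∧ z.re < 1 / 2 - t))) := by
            rintro ⟨-, -, h | h⟩
            · exact h2 h.1
            · linarith only [hx', h.2]
          rw [if_neg n4]
          rw [not_lt] at h2
          constructor
          · intro hz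
            exact absurd ⟨hy, hy', le_antisymm hz.2.2.2 h2⟩ hr
          · intro h
            norm_num at h
    · have n3 : ¬ (-hh t ≤ z.im ∧ z.im ≤ hh t ∧ ((z.re < lf t z.im ∧ -1 / 2 + t ≤ z.re) ∨
            (lf t z.im < z.re ∧ z.re < -1 / 2 + t))) := fun h => hyy ⟨h.1, h.2.1⟩
      have n4 : ¬ (-hh t ≤ z.im ∧ z.im ≤ hh t ∧ ((z.re < rt t z.im ∧ 1 / 2 - t ≤ z.re) ∨
            (rt t z.im < z.re ∧ z.re < 1 / 2 - t))) := fun h => hyy ⟨h.1, h.2.1⟩
      rw [if_neg n3, if_neg n4]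
      constructor
      · intro hz
        obtain ⟨h1, h2⟩ := of_mem ht ht60 hz
        rcases h2 with h2 | h2
        · exact absurd ⟨h1, h2⟩ hyy
        · have h3 : z.re = 1 / 2 - t := by
            rw [abs_le] at h2
            linarith only [hx', h2.2]
          have h4 := (hi_bd ht ht60 h2).2.2 (by rw [h3, abs_of_pos] <;> linarith only [ht60])
          have h5 := hz.2.1
          rw [h4] at h5
          exact absurd ⟨h1, h5⟩ hyy
      · intro h
        norm_num at h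

end Real

section Poly

open Classical in
theorem path_zip (L : Polygon) : path L = L.zip L.tail := by
  induction L with
  | nil => rfl
  | cons p L ih =>
    cases L with
    | nil => rfl
    | cons r L =>
      rw [path, ih]
      rfl

theorem pathSet_eq {L : Polygon} (h : 2 ≤ L.length) :
    pathSet L = {z | ∃ e ∈ path L, z ∈ segment ℝ (pt e.1) (pt e.2)} := by
  ext z
  rw [path_zip]
  constructor
  · rintro (⟨i, hi, hz⟩ | ⟨p, hp, -⟩)
    · have h1 : i < (L.zip L.tail).length := by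
        rw [List.length_zip, List.length_tail]
        omega
      refine ⟨(L.zip L.tail)[i], List.getElem_mem h1, ?_⟩
      rw [List.getElem_zip, List.getElem_tail]
      unfold segP at hz
      rw [List.getD_eq_getElem _ _ (by omega), List.getD_eq_getElem _ _ hi] at hz
      exact hz
    · rw [hp] at h
      simp at h
  · rintro ⟨e, he, hz⟩
    obtain ⟨i, hi, rfl⟩ := List.mem_iff_getElem.1 he
    rw [List.getElem_zip, List.getElem_tail] at hz
    rw [List.length_zip, List.length_tail] at hi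
    refine Or.inl ⟨i, by omega, ?_⟩
    unfold segP
    rw [List.getD_eq_getElem _ _ (by omega), List.getD_eq_getElem _ _ (by omega)]
    exact hz

variable {m : ℕ}

theorem cast_t (m : ℕ) : (((1 / 2 : ℚ) ^ m : ℚ) : ℝ) = (1 / 2 : ℝ) ^ m := by push_cast; rfl

theorem cast_hh (m : ℕ) : ((hh ((1 / 2 : ℚ) ^ m) : ℚ) : ℝ) = hh ((1 / 2 : ℝ) ^ m) := by
  unfold hh
  push_cast
  rfl

theorem tq_small (hm : 60 ≤ m) : (0 : ℚ) < (1 / 2) ^ m ∧ ((1 / 2 : ℚ) ^ m) ≤ 1 / 2 ^ 60 := by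
  refine ⟨by positivity, ?_⟩
  rw [one_div, inv_pow, one_div]
  exact inv_anti₀ (by positivity) (pow_le_pow_right₀ (by norm_num) hm)

theorem tr_small (hm : 60 ≤ m) : (0 : ℝ) < (1 / 2) ^ m ∧ ((1 / 2 : ℝ) ^ m) ≤ 1 / 2 ^ 60 := by
  refine ⟨by positivity, ?_⟩
  rw [one_div, inv_pow, one_div]
  exact inv_anti₀ (by positivity) (pow_le_pow_right₀ (by norm_num) hm)

theorem strict_bot (hm : 60 ≤ m) : StrictX (botP ((1 / 2) ^ m)) := by
  obtain ⟨h1, h2⟩ := tq_small hm
  generalize (1 / 2 : ℚ) ^ m = t at h1 h2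
  have h3 : t ≤ 1 / 1024 := h2.trans (by norm_num)
  unfold StrictX botP sBot tentPts
  simp only [List.cons_append, List.nil_append, List.pairwise_cons, List.mem_cons,
    List.not_mem_nil, or_false, forall_eq_or_imp, forall_eq, List.Pairwise.nil, and_true]
  refine ⟨⟨?_, ?_, ?_, ?_, ?_, ?_, ?_⟩, ⟨?_, ?_, ?_, ?_, ?_, ?_⟩, ⟨?_, ?_, ?_, ?_, ?_⟩,
    ⟨?_, ?_, ?_, ?_⟩, ⟨?_, ?_, ?_⟩, ⟨?_, ?_⟩, ?_⟩ <;> first | linarith only [h2] | (exact ⟨by linarith, fun _ h => h.elim⟩)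

theorem strict_top (hm : 60 ≤ m) : StrictX (topP ((1 / 2) ^ m)) := by
  obtain ⟨h1, h2⟩ := tq_small hm
  generalize (1 / 2 : ℚ) ^ m = t at h1 h2
  have h3 : t ≤ 1 / 1024 := h2.trans (by norm_num)
  have h4 : t ^ 3 ≤ 1 / 1024 := by
    calc t ^ 3 ≤ t ^ 1 := pow_le_pow_of_le_one h1.le (by linarith only [h2]) (by norm_num)
      _ ≤ _ := by rw [pow_one]; exact h3
  have h5 : 0 < t ^ 3 := by positivity
  unfold StrictX topP sTop tentPts
  simp only [List.cons_append, List.nil_append, List.pairwise_cons, List.mem_cons,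
    List.not_mem_nil, or_false, forall_eq_or_imp, forall_eq, List.Pairwise.nil, and_true]
  refine ⟨⟨?_, ?_, ?_, ?_, ?_, ?_, ?_⟩, ⟨?_, ?_, ?_, ?_, ?_, ?_⟩, ⟨?_, ?_, ?_, ?_, ?_⟩,
    ⟨?_, ?_, ?_, ?_⟩, ⟨?_, ?_, ?_⟩, ⟨?_, ?_⟩, ?_⟩ <;> first | linarith only [h2, h4, h5] | (exact ⟨by linarith, fun _ h => h.elim⟩)

theorem bot_head (t : ℚ) : (botP t).head? = some (-1 / 2 + t, -hh t) := rfl

theorem bot_last (t : ℚ) : (botP t).getLast? = some (1 / 2 - t, -hh t) := by
  unfold botP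
  rw [List.getLast?_append]
  rfl

theorem top_head (t : ℚ) : (topP t).head? = some (-1 / 2 + t, hh t) := rfl

theorem top_last (t : ℚ) : (topP t).getLast? = some (1 / 2 - t, hh t) := by
  unfold topP sTop
  rw [List.getLast?_cons, List.getLast?_append]
  rfl

theorem lef_head (t : ℚ) : (lefP t).head? = some (-1 / 2 + t, -hh t) := rfl

theorem lef_last (t : ℚ) : (lefP t).getLast? = some (-1 / 2 + t, hh t) := by
  unfold lefP sLeft
  rw [List.getLast?_cons, List.getLast?_append]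
  rfl

theorem rig_head (t : ℚ) : (rigP t).head? = some (1 / 2 - t, -hh t) := rfl

theorem rig_last (t : ℚ) : (rigP t).getLast? = some (1 / 2 - t, hh t) := by
  unfold rigP
  rw [List.getLast?_append]
  rfl

/-- the upper path -/
def upQ (t : ℚ) : Polygon := lefP t ++ (topP t).tail ++ (rigP t).reverse.tail

theorem rig_rev (t : ℚ) : (rigP t).reverse = (1 / 2 - t, hh t) :: (sRight t).reverse := by
  unfold rigP
  rw [List.reverse_append]
  rfl

theorem up_eq (t : ℚ) : upQ t = (-1 / 2 + t, -hh t) :: (sLeft t ++ sTop t ++ (sRight t).reverse) := by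
  unfold upQ
  rw [rig_rev]
  rfl

theorem shape_eq (t : ℚ) : shapePoly t = (botP t).dropLast ++ (upQ t).tail.reverse := by
  rw [up_eq]
  unfold shapePoly botP
  rw [List.dropLast_concat]
  rfl

theorem mid_last (t : ℚ) : (lefP t ++ (topP t).tail).getLast? = some (1 / 2 - t, hh t) := by
  have h : (topP t).tail = sTop t := rfl
  rw [h]
  unfold sTop
  rw [← List.append_assoc, List.getLast?_append]
  rfl

theorem up_last (t : ℚ) : (upQ t).getLast? = some (1 / 2 - t, -hh t) := by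
  rw [up_eq]
  have h : (sRight t).reverse.getLast? = some (1 / 2 - t, -hh t) := by
    rw [List.getLast?_reverse]
    rfl
  rw [List.getLast?_cons, List.getLast?_append, h]
  rfl

theorem len_bot (t : ℚ) : 2 ≤ (botP t).length := by
  have : (botP t).length = 8 := rfl
  omega

theorem len_top (t : ℚ) : 2 ≤ (topP t).length := by
  have : (topP t).length = 8 := rfl
  omega

theorem len_lef (t : ℚ) : 2 ≤ (lefP t).length := by
  unfold lefP sLeft
  simp only [List.length_cons, List.length_append]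
  omega

theorem len_rig (t : ℚ) : 2 ≤ (rigP t).length := by
  unfold rigP sRight
  simp only [List.length_cons, List.length_append]
  omega

theorem len_up (t : ℚ) : 3 ≤ (upQ t).length := by
  rw [up_eq]
  unfold sLeft
  simp only [List.length_cons, List.length_append]
  omega

theorem p1 (hPA1 : PA1Stmt) (hPA2 : PA2Stmt) (hPA3 : PA3Stmt) (hPA4 : PA4Stmt)
    (hP1a : P1aStmt) : P1Stmt := by
  intro m hm
  obtain ⟨w1, w2, w3, w4, hx, hy⟩ := hP1a m hm
  obtain ⟨ht, ht60⟩ := tr_small hm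
  obtain ⟨hq, hq60⟩ := tq_small hm
  have ct := cast_t m
  have ch := cast_hh m
  have sb := strict_bot hm
  have st := strict_top hm
  generalize (1 / 2 : ℚ) ^ m = Q at *
  generalize (1 / 2 : ℝ) ^ m = t at *
  obtain ⟨q1, q2, q3, -, -, -, p2, p3, -⟩ := pows ht ht60
  have hhh : hh t = 1 / 2 + t ^ 2 / 2 := by unfold hh; ring
  have hQ : Q ≤ 1 / 1024 := hq60.trans (by norm_num)
  have hhQ : 0 < hh Q := by unfold hh; positivity
  have cA : (((-1 / 2 + Q : ℚ)) : ℝ) = -1 / 2 + t := by push_cast; rw [ct]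
  have cB : (((1 / 2 - Q : ℚ)) : ℝ) = 1 / 2 - t := by push_cast; rw [ct]
  have cH : (((-hh Q : ℚ)) : ℝ) = -hh t := by push_cast; rw [ch]
  have hAB : (-1 / 2 + Q, -hh Q).1 < ((1 / 2 - Q, -hh Q) : ℚ × ℚ).1 := by
    simp only
    linarith only [hq60]
  have hCD : (-1 / 2 + Q, hh Q).1 < ((1 / 2 - Q, hh Q) : ℚ × ℚ).1 := by
    simp only
    linarith only [hq60]
  -- the four paths
  have sB : pathSet (botP Q) = {z | -1 / 2 + t ≤ z.re ∧ z.re ≤ 1 / 2 - t ∧ z.im = lo t z.re} := by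
    rw [pathSet_eq (len_bot Q)]
    ext z
    rw [Set.mem_ofPred_eq, mem_ends sb (bot_head Q) (bot_last Q) hAB, Set.mem_ofPred_eq]
    simp only [cA, cB]
    constructor
    · rintro ⟨h1, h2, h3⟩
      exact ⟨h1, h2, by rw [h3, (hx z.re h1 h2).1]⟩
    · rintro ⟨h1, h2, h3⟩
      exact ⟨h1, h2, by rw [h3, (hx z.re h1 h2).1]⟩
  have sT : pathSet (topP Q) = {z | -1 / 2 + t ≤ z.re ∧ z.re ≤ 1 / 2 - t ∧ z.im = hi t z.re} := by
    rw [pathSet_eq (len_top Q)]
    ext z
    rw [Set.mem_ofPred_eq, mem_ends st (top_head Q) (top_last Q) hCD, Set.mem_ofPred_eq]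
    simp only [cA, cB]
    constructor
    · rintro ⟨h1, h2, h3⟩
      exact ⟨h1, h2, by rw [h3, (hx z.re h1 h2).2]⟩
    · rintro ⟨h1, h2, h3⟩
      exact ⟨h1, h2, by rw [h3, (hx z.re h1 h2).2]⟩
  obtain ⟨b1, -, -, b4⟩ := hPA3 (botP Q) _ _ w1 (len_bot Q) (bot_head Q) (bot_last Q) hAB
  obtain ⟨t1, -, -, t4⟩ := hPA3 (topP Q) _ _ w3 (len_top Q) (top_head Q) (top_last Q) hCD
  obtain ⟨l1, -, -, -, l5, l6⟩ := hPA4 (lefP Q) _ _ w2 (len_lef Q) (lef_head Q) (lef_last Q) rfl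
  obtain ⟨-, r2, r3, r4, r5, r6⟩ := hPA4 (rigP Q) _ _ w4 (len_rig Q) (rig_head Q) (rig_last Q) rfl
  have sL : pathSet (lefP Q) = {z | -hh t ≤ z.im ∧ z.im ≤ hh t ∧ z.re = lf t z.im} := by
    rw [l5]
    ext z
    rw [Set.mem_ofPred_eq, Set.mem_ofPred_eq]
    simp only [cH, ch]
    constructor
    · rintro ⟨h1, h2, h3⟩
      exact ⟨h1, h2, by rw [h3, (hy z.im h1 h2).1]⟩
    · rintro ⟨h1, h2, h3⟩
      exact ⟨h1, h2, by rw [h3, (hy z.im h1 h2).1]⟩
  have sR : pathSet (rigP Q) = {z | -hh t ≤ z.im ∧ z.im ≤ hh t ∧ z.re = rt t z.im} := by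
    rw [r5]
    ext z
    rw [Set.mem_ofPred_eq, Set.mem_ofPred_eq]
    simp only [cH, ch]
    constructor
    · rintro ⟨h1, h2, h3⟩
      exact ⟨h1, h2, by rw [h3, (hy z.im h1 h2).2]⟩
    · rintro ⟨h1, h2, h3⟩
      exact ⟨h1, h2, by rw [h3, (hy z.im h1 h2).2]⟩
  obtain ⟨a1, a2, a3⟩ := hPA2 (lefP Q) (topP Q) _ (lef_last Q) (top_head Q)
  obtain ⟨c1, c2, c3⟩ := hPA2 (lefP Q ++ (topP Q).tail) (rigP Q).reverse _ (mid_last Q)
    (by rw [List.head?_reverse]; exact rig_last Q)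
  have sU : pathSet (upQ Q) = pathSet (lefP Q) ∪ pathSet (topP Q) ∪ pathSet (rigP Q) := by
    unfold upQ
    rw [c1, a1, r3]
  have cU : ∀ z, cr z (upQ Q) = cr z (lefP Q) + cr z (topP Q) + cr z (rigP Q) := by
    intro z
    unfold upQ
    rw [c2, a2, r4]
  obtain ⟨d1, d2⟩ := hPA1 (botP Q) (upQ Q) (-1 / 2 + Q, -hh Q) (1 / 2 - Q, -hh Q) (bot_head Q)
    (by rw [up_eq]; rfl) (bot_last Q) (up_last Q) (fun h => hAB.ne (congrArg Prod.fst h))
    (len_bot Q) (len_up Q)
  rw [← shape_eq] at d1 d2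
  constructor
  · refine d2 b1 ?_ ?_
    · refine c3 (a3 l1 t1 ?_) r2 ?_
      · rw [sL, sT]
        rintro z ⟨h1, h2, h3⟩ ⟨h4, h5, h6⟩
        have h7 := (hi_bd ht ht60 (abs_le.2 ⟨by linarith only [h4], h5⟩)).1
        have h8 : z.im = hh t := le_antisymm h2 (by linarith only [h6, h7])
        rw [h8, (at_top ht ht60).1] at h3
        apply Complex.ext
        · rw [h3, ← cA]
          rfl
        · rw [h8, ← ch]
          rfl
      · rw [a1, r3, sL, sT, sR]
        rintro z (⟨h1, h2, h3⟩ | ⟨h1, h2, h3⟩) ⟨h4, h5, h6⟩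
        · exfalso
          have := lf_lt_rt ht ht60 (abs_le.2 ⟨h1, h2⟩)
          linarith only [h3, h6, this]
        · have h7 := (hi_bd ht ht60 (abs_le.2 ⟨by linarith only [h1], h2⟩)).1
          have h8 : z.im = hh t := le_antisymm h5 (by linarith only [h3, h7])
          rw [h8, (at_top ht ht60).2] at h6
          apply Complex.ext
          · rw [h6, ← cB]
            rfl
          · rw [h8, ← ch]
            rfl
    · rw [sU, sB, sL, sT, sR]
      rintro z ⟨h1, h2, h3⟩ hz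
      obtain ⟨e1, e2, -⟩ := lo_bd ht ht60 (x := z.re) (abs_le.2 ⟨by linarith only [h1], h2⟩)
      obtain ⟨f1, f2⟩ := near_bot ht ht60 (y := z.im) (by linarith only [h3, e1]) (by linarith only [h3, e2])
      rcases hz with (⟨h4, h5, h6⟩ | ⟨h4, h5, h6⟩) | ⟨h4, h5, h6⟩
      · left
        rw [f1] at h6
        have h7 : z.im = -hh t := by linarith only [h3, e1, h1, h6]
        have h8 : z.re = -1 / 2 + t := by linarith only [h1, h3, e1, h6]
        apply Complex.ext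
        · rw [h8, ← cA]
          rfl
        · rw [h7, ← cH]
          rfl
      · exfalso
        have h7 := (hi_bd ht ht60 (abs_le.2 ⟨by linarith only [h1], h2⟩)).1
        linarith only [ht60, q3, p2, hhh, h3, e2, h6, h7]
      · right
        rw [f2] at h6
        have h7 : z.im = -hh t := by linarith only [h3, e1, h2, h6]
        have h8 : z.re = 1 / 2 - t := by linarith only [h3, e1, h6, h2]
        apply Complex.ext
        · rw [h8, ← cB]
          rfl
        · rw [h7, ← cH]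
          rfl
  · rw [d1]
    ext z
    rw [Set.mem_ofPred_eq]
    have iB : z ∈ pathSet (botP Q) ↔
        (-1 / 2 + t ≤ z.re ∧ z.re ≤ 1 / 2 - t ∧ z.im = lo t z.re) := by rw [sB]; rfl
    have iT : z ∈ pathSet (topP Q) ↔
        (-1 / 2 + t ≤ z.re ∧ z.re ≤ 1 / 2 - t ∧ z.im = hi t z.re) := by rw [sT]; rfl
    have iL : z ∈ pathSet (lefP Q) ↔
        (-hh t ≤ z.im ∧ z.im ≤ hh t ∧ z.re = lf t z.im) := by rw [sL]; rfl
    have iR : z ∈ pathSet (rigP Q) ↔
        (-hh t ≤ z.im ∧ z.im ≤ hh t ∧ z.re = rt t z.im) := by rw [sR]; rfl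
    by_cases hB : z ∈ pathSet (botP Q)
    · have h := iB.1 hB
      have : z ∈ shape t := mem_bot ht ht60 (abs_le.2 ⟨by linarith only [h.1], h.2.1⟩) h.2.2
      simp [hB, this]
    by_cases hT : z ∈ pathSet (topP Q)
    · have h := iT.1 hT
      have ha := abs_le.2 ⟨(by linarith only [h.1] : -(1 / 2 - t) ≤ z.re), h.2.1⟩
      have : z ∈ shape t := mem_top ht ht60 ha (by rw [h.2.2]; exact (hi_bd ht ht60 ha).1) h.2.2.le
      have hU : z ∈ pathSet (upQ Q) := by rw [sU]; exact Or.inl (Or.inr hT)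
      simp [hU, this]
    by_cases hL : z ∈ pathSet (lefP Q)
    · have h := iL.1 hL
      have hlr := lf_lt_rt ht ht60 (abs_le.2 ⟨h.1, h.2.1⟩)
      have : z ∈ shape t := by
        refine mem_mid ht ht60 h.1 h.2.1 h.2.2.ge (by linarith only [hlr, h.2.2]) fun h4 => ?_
        obtain ⟨g1, g2, g3⟩ := lo_bd ht ht60 h4
        by_contra hcon
        rw [not_le] at hcon
        obtain ⟨f1, f2⟩ := near_bot ht ht60 (y := z.im) h.1 (by linarith only [g2, hcon])
        rw [h.2.2, f1] at hcon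
        have h5 : z.re ≤ -1 / 2 + t := by linarith only [f1, h.2.2, h.1]
        have h6 := g3 (by rw [abs_of_neg] <;> linarith only [ht60, h, f1])
        rw [h.2.2, f1] at h6
        linarith only [hcon, h6, h.1]
      have hU : z ∈ pathSet (upQ Q) := by rw [sU]; exact Or.inl (Or.inl hL)
      simp [hU, this]
    by_cases hR : z ∈ pathSet (rigP Q)
    · have h := iR.1 hR
      have hlr := lf_lt_rt ht ht60 (abs_le.2 ⟨h.1, h.2.1⟩)
      have hge := le_rt ht ht60 (abs_le.2 ⟨h.1, h.2.1⟩)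
      have : z ∈ shape t := by
        refine mem_mid ht ht60 h.1 h.2.1 (by linarith only [hlr, h.2.2]) h.2.2.le fun h4 => ?_
        obtain ⟨g1, g2, g3⟩ := lo_bd ht ht60 h4
        have h6 := g3 (by rw [abs_of_pos] <;> linarith only [ht60, q3, hge, h.2.2])
        rw [h6]
        exact h.1
      have hU : z ∈ pathSet (upQ Q) := by rw [sU]; exact Or.inr hR
      simp [hU, this]
    have hU : z ∉ pathSet (upQ Q) := by
      rw [sU]
      rintro ((h | h) | h)
      · exact hL h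
      · exact hT h
      · exact hR h
    have g1 := b4 z hB
    have g2 := t4 z hT
    have g3 := l6 z hL
    have g4 := r6 z hR
    simp only [cA, cB, cH, ch] at g1 g2 g3 g4
    have key := par_shape ht ht60 (fun h => hB (iB.2 h)) (fun h => hT (iT.2 h))
      (fun h => hL (iL.2 h)) (fun h => hR (iR.2 h))
    rw [key, cU]
    have e1 : ∀ x y : Prop, (z ∈ pathSet (botP Q) ∨ z ∈ pathSet (upQ Q) ∨ x) ↔ x := by
      intro x _
      simp [hB, hU]
    rw [e1 _ True, Nat.odd_iff]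
    have e2 : (if -1 / 2 + t ≤ z.re ∧ z.re < 1 / 2 - t ∧ z.im < lo t z.re then 1 else 0) =
        cr z (botP Q) % 2 := by
      rw [g1]
      by_cases h : -1 / 2 + t ≤ z.re ∧ z.re < 1 / 2 - t
      · rw [(hx z.re h.1 h.2.le).1]
      · rw [if_neg fun h' => h ⟨h'.1, h'.2.1⟩, if_neg fun h' => h ⟨h'.1, h'.2.1⟩]
    have e3 : (if -1 / 2 + t ≤ z.re ∧ z.re < 1 / 2 - t ∧ z.im < hi t z.re then 1 else 0) =
        cr z (topP Q) % 2 := by
      rw [g2]
      by_cases h : -1 / 2 + t ≤ z.re ∧ z.re < 1 / 2 - t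
      · rw [(hx z.re h.1 h.2.le).2]
      · rw [if_neg fun h' => h ⟨h'.1, h'.2.1⟩, if_neg fun h' => h ⟨h'.1, h'.2.1⟩]
    have e4 : (if -hh t ≤ z.im ∧ z.im ≤ hh t ∧ ((z.re < lf t z.im ∧ -1 / 2 + t ≤ z.re) ∨
        (lf t z.im < z.re ∧ z.re < -1 / 2 + t)) then 1 else 0) = cr z (lefP Q) % 2 := by
      rw [g3]
      by_cases h : -hh t ≤ z.im ∧ z.im ≤ hh t
      · rw [(hy z.im h.1 h.2).1]
      · rw [if_neg fun h' => h ⟨h'.1, h'.2.1⟩, if_neg fun h' => h ⟨h'.1, h'.2.1⟩]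
    have e5 : (if -hh t ≤ z.im ∧ z.im ≤ hh t ∧ ((z.re < rt t z.im ∧ 1 / 2 - t ≤ z.re) ∨
        (rt t z.im < z.re ∧ z.re < 1 / 2 - t)) then 1 else 0) = cr z (rigP Q) % 2 := by
      rw [g4]
      by_cases h : -hh t ≤ z.im ∧ z.im ≤ hh t
      · rw [(hy z.im h.1 h.2).2]
      · rw [if_neg fun h' => h ⟨h'.1, h'.2.1⟩, if_neg fun h' => h ⟨h'.1, h'.2.1⟩]
    rw [e2, e3, e4, e5]
    omega

end Poly

end Pool.Agent.Helper2_Pak.H66
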